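import Pool.Agent.MP_1246c0_nt.H12.SpecN

/-! Product measures on pairs of disjoint sets. -/

namespace Pool.Agent.MP_1246c0_nt.H12

open Finset

namespace PM

variable {U : Finset ℕ} {a b : ℕ → ℝ} {F G : Finset ℕ → Finset ℕ → ℝ}

theorem congr (h : ∀ Sg ⊆ U, ∀ B ⊆ U \ Sg, F Sg B = G Sg B) : PS U a b F = PS U a b G :=
  sum_congr rfl fun Sg hS => sum_congr rfl fun B hB => by
    rw [h Sg (mem_powerset.1 hS) B (mem_powerset.1 hB)]

theorem empty : PS ∅ a b F = F ∅ ∅ := by simp [PS]

theorem ins {q : ℕ} (hq : q ∉ U) : PS (insert q U) a b F = PS U a b F +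
    a q * PS U a b (fun Sg B => F (insert q Sg) B) +
    b q * PS U a b (fun Sg B => F Sg (insert q B)) := by
  unfold PS
  rw [sum_powerset_insert hq, mul_sum, mul_sum, ← sum_add_distrib, ← sum_add_distrib,
    ← sum_add_distrib]
  refine sum_congr rfl fun Sg hS => ?_
  have h1 : q ∉ Sg := fun h => hq (mem_powerset.1 hS h)
  have h2 : q ∉ U \ Sg := fun h => hq (mem_sdiff.1 h).1
  rw [insert_sdiff_of_notMem _ h1, sum_powerset_insert h2, insert_sdiff_insert,
    sdiff_insert_of_notMem hq, mul_sum, mul_sum, add_right_comm]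
  congr 1
  · congr 1
    refine sum_congr rfl fun B _ => ?_
    rw [prod_insert h1]
    ring
  · refine sum_congr rfl fun B hB => ?_
    rw [prod_insert fun h => h2 (mem_powerset.1 hB h)]
    ring

theorem add : PS U a b (fun Sg B => F Sg B + G Sg B) = PS U a b F + PS U a b G := by
  simp only [PS, mul_add, sum_add_distrib]

theorem cmul (c : ℝ) : PS U a b (fun Sg B => c * F Sg B) = c * PS U a b F := by
  simp only [PS, mul_sum]
  exact sum_congr rfl fun _ _ => sum_congr rfl fun _ _ => by ring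

theorem mono (hab : ∀ p ∈ U, 0 ≤ a p ∧ 0 ≤ b p)
    (h : ∀ Sg ⊆ U, ∀ B ⊆ U \ Sg, (∀ p ∈ Sg, a p ≠ 0) → (∀ p ∈ B, b p ≠ 0) → F Sg B ≤ G Sg B) :
    PS U a b F ≤ PS U a b G := by
  refine sum_le_sum fun Sg hS => sum_le_sum fun B hB => ?_
  rw [mem_powerset] at hS hB
  by_cases h0 : (∏ p ∈ Sg, a p) * ∏ p ∈ B, b p = 0
  · simp [h0]
  · refine mul_le_mul_of_nonneg_left (h Sg hS B hB (prod_ne_zero_iff.1 (left_ne_zero_of_mul h0))
      (prod_ne_zero_iff.1 (right_ne_zero_of_mul h0))) (mul_nonneg ?_ ?_)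
    · exact prod_nonneg fun p hp => (hab p (hS hp)).1
    · exact prod_nonneg fun p hp => (hab p (mem_sdiff.1 (hB hp)).1).2

theorem mul (f g h : ℕ → ℝ) :
    PS U a b (fun Sg B => ∏ p ∈ U, if p ∈ Sg then f p else if p ∈ B then g p else h p) =
      ∏ p ∈ U, (h p + a p * f p + b p * g p) := by
  induction U using Finset.induction_on with
  | empty => simp [empty]
  | insert q U hq ih =>
    have e1 : ∀ (c : ℝ) (F : Finset ℕ → Finset ℕ → ℝ), (∀ Sg ⊆ U, ∀ B ⊆ U, F Sg B =
        c * ∏ p ∈ U, if p ∈ Sg then f p else if p ∈ B then g p else h p) →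
        PS U a b F = c * ∏ p ∈ U, (h p + a p * f p + b p * g p) := fun c F hF => by
      rw [← ih, ← cmul]
      exact congr fun Sg hS B hB => hF Sg hS B (hB.trans sdiff_subset)
    have ne : ∀ p ∈ U, p ≠ q := fun p hp => ne_of_mem_of_not_mem hp hq
    rw [ins hq, prod_insert hq, e1 (h q), e1 (f q), e1 (g q)]
    · ring
    · intro Sg hS B hB
      rw [prod_insert hq, if_neg fun h => hq (hS h), if_pos (mem_insert_self _ _)]
      congr 1
      exact prod_congr rfl fun p hp => by simp [ne p hp]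
    · intro Sg hS B hB
      rw [prod_insert hq, if_pos (mem_insert_self _ _)]
      congr 1
      exact prod_congr rfl fun p hp => by simp [ne p hp]
    · intro Sg hS B hB
      rw [prod_insert hq, if_neg fun h => hq (hS h), if_neg fun h => hq (hB h)]

theorem one : PS U a b (fun _ _ => 1) = ∏ p ∈ U, (1 + a p + b p) := by
  simpa using mul (U := U) (a := a) (b := b) (fun _ => 1) (fun _ => 1) fun _ => 1

theorem const (c : ℝ) : PS U a b (fun _ _ => c) = c * ∏ p ∈ U, (1 + a p + b p) := by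
  rw [← one, ← cmul]
  simp

theorem first (f g : ℕ → ℝ) (hab : ∀ p ∈ U, 0 ≤ a p ∧ 0 ≤ b p)
    (hfg : ∀ p ∈ U, 0 ≤ f p ∧ 0 ≤ g p) :
    PS U a b (fun Sg B => ∑ p ∈ Sg, f p + ∑ p ∈ B, g p) ≤
      (∏ p ∈ U, (1 + a p + b p)) * ∑ p ∈ U, (a p * f p + b p * g p) := by
  induction U using Finset.induction_on with
  | empty => simp [empty]
  | insert q U hq ih =>
    have i1 := ih (fun p hp => hab p (mem_insert_of_mem hp)) fun p hp =>
      hfg p (mem_insert_of_mem hp)
    obtain ⟨ha, hb⟩ := hab q (mem_insert_self _ _)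
    obtain ⟨hf, hg⟩ := hfg q (mem_insert_self _ _)
    have hZ : 0 ≤ ∏ p ∈ U, (1 + a p + b p) := prod_nonneg fun p hp => by
      have := hab p (mem_insert_of_mem hp)
      linarith [this.1, this.2]
    have e1 : PS U a b (fun Sg B => ∑ p ∈ insert q Sg, f p + ∑ p ∈ B, g p) =
        f q * ∏ p ∈ U, (1 + a p + b p) + PS U a b fun Sg B => ∑ p ∈ Sg, f p + ∑ p ∈ B, g p := by
      rw [← const, ← add]
      exact congr fun Sg hS B _ => by rw [sum_insert fun h => hq (hS h), add_assoc]
    have e2 : PS U a b (fun Sg B => ∑ p ∈ Sg, f p + ∑ p ∈ insert q B, g p) =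
        g q * ∏ p ∈ U, (1 + a p + b p) + PS U a b fun Sg B => ∑ p ∈ Sg, f p + ∑ p ∈ B, g p := by
      rw [← const, ← add]
      exact congr fun Sg _ B hB => by
        rw [sum_insert fun h => hq (mem_sdiff.1 (hB h)).1, add_left_comm]
    rw [ins hq, e1, e2, prod_insert hq, sum_insert hq]
    have h1 := mul_le_mul_of_nonneg_left i1 (show 0 ≤ 1 + a q + b q by positivity)
    have h2 : 0 ≤ (a q + b q) * ((a q * f q + b q * g q) * ∏ p ∈ U, (1 + a p + b p)) := by
      positivity
    nlinarith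

/-- centred indicators -/
noncomputable def X (U : Finset ℕ) (a b c : ℕ → ℝ) (B : Finset ℕ) : ℝ :=
  ∑ p ∈ U, c p * ((if p ∈ B then 1 else 0) - b p / (1 + a p + b p))

theorem second (c : ℕ → ℝ) (hab : ∀ p ∈ U, 0 ≤ a p ∧ 0 ≤ b p) :
    PS U a b (fun _ B => X U a b c B) = 0 ∧ PS U a b (fun _ B => X U a b c B ^ 2) ≤
      (∏ p ∈ U, (1 + a p + b p)) * ∑ p ∈ U, c p ^ 2 * (b p / (1 + a p + b p)) := by
  induction U using Finset.induction_on with
  | empty => simp [empty, X]
  | insert q U hq ih =>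
    obtain ⟨i1, i2⟩ := ih fun p hp => hab p (mem_insert_of_mem hp)
    obtain ⟨ha, hb⟩ := hab q (mem_insert_self _ _)
    have hZ : 0 ≤ ∏ p ∈ U, (1 + a p + b p) := prod_nonneg fun p hp => by
      have := hab p (mem_insert_of_mem hp)
      linarith [this.1, this.2]
    have hs : 0 < 1 + a q + b q := by positivity
    obtain ⟨β, hβ⟩ : ∃ β, β = b q / (1 + a q + b q) := ⟨_, rfl⟩
    have hβ' : b q = β * (1 + a q + b q) := by rw [hβ, div_mul_cancel₀ _ hs.ne']
    have hβ0 : 0 ≤ β := hβ ▸ div_nonneg hb hs.le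
    have x1 : ∀ B ⊆ U, X (insert q U) a b c B = -(c q * β) + X U a b c B := fun B hB => by
      rw [X, sum_insert hq, if_neg fun h => hq (hB h), ← hβ, X]
      ring
    have x2 : ∀ B, X (insert q U) a b c (insert q B) = c q * (1 - β) + X U a b c B := fun B => by
      rw [X, sum_insert hq, if_pos (mem_insert_self _ _), ← hβ, X]
      congr 1
      exact sum_congr rfl fun p hp => by simp [ne_of_mem_of_not_mem hp hq]
    have e1 : ∀ t : ℝ, PS U a b (fun _ B => t + X U a b c B) = t * ∏ p ∈ U, (1 + a p + b p) :=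
      fun t => by rw [add, const, i1, add_zero]
    have e2 : ∀ t : ℝ, PS U a b (fun _ B => (t + X U a b c B) ^ 2) =
        t ^ 2 * ∏ p ∈ U, (1 + a p + b p) + PS U a b fun _ B => X U a b c B ^ 2 := fun t => by
      simp only [add_sq]
      rw [add, add, const, cmul, i1, mul_zero, add_zero]
    have c1 : PS U a b (fun _ B => X (insert q U) a b c B) = _ :=
      (congr fun _ _ B hB => x1 B (hB.trans sdiff_subset)).trans (e1 _)
    have c2 : PS U a b (fun _ B => X (insert q U) a b c B ^ 2) = _ :=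
      (congr fun _ _ B hB => by rw [x1 B (hB.trans sdiff_subset)]).trans (e2 _)
    constructor
    · rw [ins hq, c1]
      simp only [x2, e1]
      linear_combination (c q * ∏ p ∈ U, (1 + a p + b p)) * hβ'
    · rw [ins hq, c2, prod_insert hq, sum_insert hq, ← hβ]
      simp only [x2, e2]
      have h1 := mul_le_mul_of_nonneg_left i2 hs.le
      have h2 : 0 ≤ (1 + a q + b q) * (c q * β) ^ 2 * ∏ p ∈ U, (1 + a p + b p) := by positivity
      have h3 : (1 + a q) * (c q * β) ^ 2 + b q * (c q * (1 - β)) ^ 2 =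
          (1 + a q + b q) * (c q ^ 2 * β) - (1 + a q + b q) * (c q * β) ^ 2 := by
        linear_combination (c q ^ 2 * (1 - 2 * β)) * hβ'
      have h4 := congrArg (· * ∏ p ∈ U, (1 + a p + b p)) h3
      nlinarith

theorem sg_add (x y : F2) : sg (x + y) = sg x * sg y := by
  have : ∀ x : F2, x = 0 ∨ x = 1 := by decide
  have h : (1 + 1 : F2) = 0 := by decide
  rcases this x with rfl | rfl <;> rcases this y with rfl | rfl <;> simp [sg, h]

theorem sg_sum (s : Finset ℕ) (ψ : ℕ → F2) : sg (∑ p ∈ s, ψ p) = ∏ p ∈ s, sg (ψ p) := by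
  induction s using Finset.induction_on with
  | empty => simp [sg]
  | insert q s hq ih => rw [sum_insert hq, prod_insert hq, sg_add, ih]

theorem miss {W V : Finset ℕ} (hab : ∀ p ∈ U, 0 ≤ a p ∧ 0 ≤ b p ∧ a p + b p ≤ 1) (hW : W ⊆ U)
    (hV : V ⊆ U \ W) : PS U a b (fun Sg B => ind (W ⊆ Sg ∧ Disjoint B V)) ≤
      (∏ p ∈ U, (1 + a p + b p)) * (∏ p ∈ W, a p) * Real.exp (-(∑ p ∈ V, b p) / 2) := by
  have h1 := mul (U := U) (a := a) (b := b) (fun _ => 1)
    (fun p => if p ∈ W ∨ p ∈ V then 0 else 1) fun p => if p ∈ W then 0 else 1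
  refine (mono (fun p hp => ⟨(hab p hp).1, (hab p hp).2.1⟩) fun Sg _ B _ _ _ => ?_).trans
    (h1.le.trans ?_)
  · unfold ind
    split_ifs with h
    · refine (prod_eq_one fun p _ => ?_).ge
      by_cases h2 : p ∈ Sg
      · rw [if_pos h2]
      · have h3 : p ∉ W := fun h' => h2 (h.1 h')
        by_cases h4 : p ∈ B
        · simp [h3, h4, disjoint_left.1 h.2 h4]
        · simp [h3, h4]
    · exact prod_nonneg fun p _ => by split_ifs <;> norm_num
  · have h2 : ∏ p ∈ W, a p = ∏ p ∈ U, if p ∈ W then a p else 1 := by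
      rw [prod_ite_mem, inter_eq_right.2 hW]
    have h3 : Real.exp (-(∑ p ∈ V, b p) / 2) =
        ∏ p ∈ U, if p ∈ V then Real.exp (-b p / 2) else 1 := by
      rw [prod_ite_mem, inter_eq_right.2 (hV.trans sdiff_subset), ← Real.exp_sum, ← sum_neg_distrib,
        sum_div]
    rw [h2, h3, ← prod_mul_distrib, ← prod_mul_distrib]
    refine prod_le_prod (fun p hp => ?_) fun p hp => ?_ <;> obtain ⟨ha, hb, hab⟩ := hab p hp
    · split_ifs <;> positivity
    · by_cases h4 : p ∈ W
      · have h5 : p ∉ V := fun h => (mem_sdiff.1 (hV h)).2 h4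
        simp only [h4, h5, true_or, if_true, if_false]
        nlinarith
      · by_cases h5 : p ∈ V
        · simp only [h4, h5, or_true, if_true, if_false]
          have := Real.add_one_le_exp (-b p / 2)
          nlinarith
        · simp [h4, h5]

theorem chr {V : Finset ℕ} (ψ : ℕ → F2) (hab : ∀ p ∈ U, 0 ≤ a p ∧ 0 ≤ b p ∧ a p + b p ≤ 1)
    (hV : V ⊆ U) (hψ : ∀ p ∈ V, ψ p = 1) : |PS U a b fun Sg B => sg (∑ p ∈ Sg ∪ B, ψ p)| ≤
      (∏ p ∈ U, (1 + a p + b p)) * Real.exp (-∑ p ∈ V, b p) := by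
  have h1 : PS U a b (fun Sg B => sg (∑ p ∈ Sg ∪ B, ψ p)) = _ :=
    (congr fun Sg hS B hB => by
      rw [sg_sum, ← inter_eq_right.2 (union_subset hS (hB.trans sdiff_subset)), ← prod_ite_mem]
      refine prod_congr rfl fun p _ => ?_
      by_cases h2 : p ∈ Sg <;> simp [h2]).trans
    (mul (fun p => sg (ψ p)) (fun p => sg (ψ p)) fun _ => 1)
  have h3 : Real.exp (-∑ p ∈ V, b p) = ∏ p ∈ U, if p ∈ V then Real.exp (-b p) else 1 := by
    rw [prod_ite_mem, inter_eq_right.2 hV, ← Real.exp_sum, ← sum_neg_distrib]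
  rw [h1, h3, ← prod_mul_distrib, abs_prod]
  refine prod_le_prod (fun p _ => abs_nonneg _) fun p hp => ?_
  obtain ⟨ha, hb, hab⟩ := hab p hp
  split_ifs with h4
  · have := Real.add_one_le_exp (-b p)
    rw [hψ p h4, sg, if_neg one_ne_zero, abs_of_nonneg (by linarith)]
    nlinarith
  · unfold sg
    split_ifs
    · rw [abs_of_nonneg (by linarith)]
      linarith
    · rw [abs_of_nonneg (by linarith)]
      linarith

end PM

theorem rowPM : SPM where
  mul _ _ _ f g h := PM.mul f g h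
  mono _ _ _ _ _ := PM.mono
  add _ _ _ _ _ := PM.add
  cmul _ _ _ c _ := PM.cmul c
  sum _ s U a b F := by
    simp only [PS, mul_sum]
    rw [sum_comm]
    exact sum_congr rfl fun _ _ => sum_comm
  one _ _ _ := PM.one
  markov U a b f g t hab hfg := by
    rw [← PM.cmul]
    refine (PM.mono hab fun Sg hS B hB _ _ => ?_).trans (PM.first f g hab hfg)
    unfold ind
    split_ifs with h
    · rw [mul_one]
      exact h.le
    · rw [mul_zero]
      exact add_nonneg (sum_nonneg fun p hp => (hfg p (hS hp)).1)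
        (sum_nonneg fun p hp => (hfg p (mem_sdiff.1 (hB hp)).1).2)
  cheb U V a b hab hV := by
    have h := (PM.second (fun p => if p ∈ V then 1 else 0) hab).2
    simp only [PM.X, ite_pow, one_pow, ne_eq, OfNat.ofNat_ne_zero, not_false_eq_true, zero_pow,
      ite_mul, one_mul, zero_mul, sum_ite_mem, inter_eq_right.2 hV, sum_sub_distrib, sum_const,
      nsmul_eq_mul, mul_one, inter_comm V] at h
    exact h
  miss _ _ _ _ _ := PM.miss
  chr _ _ _ _ ψ := PM.chr ψ

end Pool.Agent.MP_1246c0_nt.H12
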