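import Pool.Agent.MP_1246c0_nt.H12.SpecA

/-! The law of reciprocity in a layer of the tower. -/

namespace Pool.Agent.MP_1246c0_nt.H12

open NumberField IsDedekindDomain Finset Pool.Agent.MP_db5b97_nt.H85

namespace RF

variable {F : Type} [Field F] [NumberField F]

theorem qv_zsmul (ra : SRA) (w : Pr F 2) {x : Un F} (hx : ord w.1 x = 0) (n : ℤ) :
    qv w.1 (n • x).val = (n : F2) * qv w.1 x.val := by
  let Q : (ord w.1).ker →+ F2 := AddMonoidHom.mk' (fun x => qv w.1 x.1.val) fun x y =>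
    ra.qmul F w _ _ ((ord_eq_zero_iff _ _).1 x.2) ((ord_eq_zero_iff _ _).1 y.2)
  have := map_zsmul Q n ⟨x, hx⟩
  rw [zsmul_eq_mul] at this
  exact this

theorem tame_left (ra : SRA) (w : Pr F 2) {x : Un F} (y : Un F) (hx : ord w.1 x = 0) :
    tame w.1 x y = (ord w.1 y : F2) * qv w.1 x.val := by
  rw [tame, hx, zero_mul, zpow_zero, one_mul, zero_smul, sub_zero, qv_zsmul ra w hx]

theorem tame_right (ra : SRA) (w : Pr F 2) (x : Un F) {y : Un F} (hy : ord w.1 y = 0) :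
    tame w.1 x y = (ord w.1 x : F2) * qv w.1 y.val := by
  rw [tame, hy, mul_zero, zpow_zero, one_mul, zero_smul, zero_sub, ← neg_smul, qv_zsmul ra w hy,
    Int.cast_neg, ZMod.neg_eq_self_mod_two]

/-- the divisor of `y` is an odd multiple of `p` -/
structure At (p : Pr F 2) (y : Un F) : Prop where
  odd : (ord p.1 y : F2) = 1
  off : ∀ w : Sp F, w ≠ p.1 → ord w y = 0

theorem mem_Eu {x : Un F} : x ∈ Eu F ↔ ∀ w : Sp F, ord w x = 0 := by
  simp [Eu, AddSubgroup.mem_iInf]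

theorem At.ru {p : Pr F 2} {y : Un F} (h : At p y) : y ∈ Ru F 2 :=
  mem_Ru_iff_ord.2 fun w => h.off _ fun e => p.2 (e ▸ w.2)

theorem At.add {p : Pr F 2} {y u : Un F} (h : At p y) (hu : u ∈ Eu F) : At p (y + u) :=
  ⟨by rw [map_add, mem_Eu.1 hu, add_zero, h.odd],
    fun w hw => by rw [map_add, mem_Eu.1 hu, add_zero, h.off w hw]⟩

open Classical in
theorem dy_unit (ra : SRA) {p : Pr F 2} {x y : Un F} (hx : x ∈ Eu F) (hy : At p y) :
    dy x y = qv p.1 x.val + ∑ᶠ ρ : F →+* ℝ, if ρ x.val < 0 ∧ ρ y.val < 0 then 1 else 0 := by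
  rw [dy, finsum_eq_single _ p fun w hw => ?_, tame_left ra p y (mem_Eu.1 hx _), hy.odd, one_mul]
  rw [tame_left ra w y (mem_Eu.1 hx _), hy.off _ fun e => hw (Subtype.ext e), Int.cast_zero,
    zero_mul]

theorem dy_pos (ra : SRA) {p : Pr F 2} {x y : Un F} (hx : x ∈ Eu F) (hy : At p y)
    (hp : ∀ ρ : F →+* ℝ, 0 < ρ y.val) : dy x y = qv p.1 x.val := by
  rw [dy_unit ra hx hy, finsum_eq_zero_of_forall_eq_zero fun ρ => ?_, add_zero]
  exact if_neg fun h => (hp ρ).not_gt h.2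

theorem dy_two (ra : SRA) {p p' : Pr F 2} {x y : Un F} (hx : At p x) (hy : At p' y) (hne : p ≠ p')
    (hp : ∀ ρ : F →+* ℝ, 0 < ρ y.val) : dy x y = qv p'.1 x.val + qv p.1 y.val := by
  classical
  have h1 : p'.1 ≠ p.1 := fun e => hne (Subtype.ext e).symm
  rw [dy, finsum_eq_zero_of_forall_eq_zero (f := fun ρ : F →+* ℝ => _) fun ρ => ?_, add_zero,
    finsum_eq_sum_of_support_subset (s := {p', p}) _ fun w hw => ?_, sum_pair hne.symm,
    tame_left ra p' y (hx.off _ h1), tame_right ra p x (hy.off _ h1.symm), hx.odd, hy.odd, one_mul,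
    one_mul]
  · by_contra hw'
    simp only [coe_insert, coe_singleton, Set.mem_insert_iff, Set.mem_singleton_iff, not_or] at hw'
    refine hw ?_
    change tame w.1 x y = 0
    rw [tame_left ra w y (hx.off _ fun e => hw'.2 (Subtype.ext e)),
      hy.off _ fun e => hw'.1 (Subtype.ext e), Int.cast_zero, zero_mul]
  · exact if_neg fun h => (hp ρ).not_gt h.2

theorem core (ra : SRA) {J : Type} [Fintype J] (η : J → Un F) (r : J → F →+* ℝ)
    (hη : ∀ j, η j ∈ Eu F) (hr : Function.Bijective r)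
    (hs : ∀ j (ρ : F →+* ℝ), ρ (η j).val < 0 ↔ ρ = r j)
    (sq : ∀ u ∈ Eu F, (∀ ρ : F →+* ℝ, 0 < ρ u.val) → ∃ v ∈ Eu F, u = 2 • v)
    (van : ∀ a ∈ Ru F 2, ∀ b z : Un F, b - 2 • z ∈ Ray F 2 2 → dy a b = 0)
    (prim : ∀ a ∈ Ru F 2, ∃ u ∈ Eu F, ∃ z : Un F, a + u - 2 • z ∈ Ray F 2 2)
    {p p' : Pr F 2} {x y : Un F} (hx : At p x) (hy : At p' y) (hne : p ≠ p')
    (hx' : ∀ ρ : F →+* ℝ, 0 < ρ x.val) (hy' : ∀ ρ : F →+* ℝ, 0 < ρ y.val) :
    qv p'.1 x.val + qv p.1 y.val = ∑ j, qv p.1 (η j).val * qv p'.1 (η j).val := by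
  classical
  obtain ⟨u, hu, z, hz⟩ := prim x hx.ru
  let a : J → ℕ := fun j => if r j u.val < 0 then 1 else 0
  have ha : ∀ j, qv p.1 (η j).val = a j := by
    intro j
    have h1 := van (η j) (mem_Ru_iff_ord.2 fun w => mem_Eu.1 (hη j) _) _ z hz
    rw [dy_unit ra (hη j) (hx.add hu), finsum_eq_single _ (r j) fun ρ hρ =>
      if_neg fun h => hρ ((hs j ρ).1 h.1)] at h1
    rw [CharTwo.add_eq_zero.1 h1]
    have h2 : r j (x + u).val < 0 ↔ r j u.val < 0 := by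
      rw [Un.val_add, map_mul]
      exact ⟨fun h => neg_of_mul_neg_right h (hx' _).le, fun h => mul_neg_of_pos_of_neg (hx' _) h⟩
    simp only [(hs j (r j)).2 rfl, true_and, h2, a]
    split_ifs <;> simp
  have hpos : ∀ ρ : F →+* ℝ, 0 < ρ (u + ∑ j, a j • η j).val := by
    intro ρ
    obtain ⟨i, rfl⟩ := hr.2 ρ
    rw [Un.val_add, Un.val_sum, map_mul, map_prod, ← mul_prod_erase univ _ (mem_univ i),
      ← mul_assoc]
    refine mul_pos ?_ (prod_pos fun j hj => ?_)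
    · rw [Un.val_nsmul, map_pow]
      by_cases h : r i u.val < 0
      · simp only [a, h, if_true, pow_one]
        exact mul_pos_of_neg_of_neg h ((hs i _).2 rfl)
      · simp only [a, h, if_false, pow_zero, mul_one]
        exact lt_of_le_of_ne (not_lt.1 h) ((map_ne_zero _).2 u.val_ne).symm
    · rw [Un.val_nsmul, map_pow]
      refine pow_pos (lt_of_le_of_ne (not_lt.1 fun h => ?_)
        ((map_ne_zero _).2 (η j).val_ne).symm) _
      exact ne_of_mem_erase hj (hr.1 ((hs j _).1 h)).symm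
  obtain ⟨v, -, hv⟩ := sq _ (add_mem hu (sum_mem fun j _ => nsmul_mem (hη j) _)) hpos
  let Q : Un F →+ F2 := AddMonoidHom.mk' (fun b => dy b y) fun b b' => ra.add F b b' y
  have hQ : ∀ b, Q b = dy b y := fun _ => rfl
  have h1 := congrArg Q hv
  rw [map_nsmul, two_nsmul, CharTwo.add_self_eq_zero, map_add, map_sum,
    CharTwo.add_eq_zero] at h1
  have h2 := van y hy.ru _ z hz
  rw [ra.symm, ra.add, CharTwo.add_eq_zero, dy_two ra hx hy hne hy', ← hQ, h1] at h2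
  rw [h2]
  refine sum_congr rfl fun j _ => ?_
  rw [map_nsmul, hQ, dy_pos ra (hη j) hy hy', ha, nsmul_eq_mul]

theorem mult_pow (w v : Sp F) [Decidable (w = v)] (h : ℕ) :
    multiplicity w.asIdeal (v.asIdeal ^ h) = if w = v then h else 0 := by
  induction h with
  | zero =>
    rw [pow_zero, multiplicity_of_one_right w.prime.not_isUnit, ite_self]
  | succ h ih =>
    rw [pow_succ, mult_mul w (pow_ne_zero _ v.ne_bot) v.ne_bot, ih, mult_prime]
    split_ifs <;> rfl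

theorem exists_at {l h : ℕ} (hl : l.Prime) (hl2 : l ≠ 2) (hh : Odd h) (ψ : 𝓞 F →+* ZMod l)
    {π : 𝓞 F} (hπ : Ideal.span {π} = RingHom.ker ψ ^ h) :
    ∃ (p : Pr F 2) (h0 : π ≠ 0), p.1.asIdeal = RingHom.ker ψ ∧ At p (mkI π h0) := by
  classical
  have : Fact l.Prime := ⟨hl⟩
  have h1 : RingHom.ker ψ ≠ ⊥ := fun e => by
    have h2 : (l : 𝓞 F) ∈ RingHom.ker ψ := by simp [RingHom.mem_ker]
    rw [e, Ideal.mem_bot] at h2
    exact hl.ne_zero (by exact_mod_cast h2)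
  have h2 : ((2 : ℕ) : 𝓞 F) ∉ RingHom.ker ψ := fun e => by
    rw [RingHom.mem_ker, map_natCast, ZMod.natCast_eq_zero_iff] at e
    exact hl2 ((Nat.prime_dvd_prime_iff_eq hl Nat.prime_two).1 e)
  have h0 : π ≠ 0 := fun e => pow_ne_zero h h1 (by rw [← hπ, e]; simp)
  let v : Sp F := ⟨RingHom.ker ψ, RingHom.ker_isPrime ψ, h1⟩
  have h3 : ∀ w : Sp F, ord w (mkI π h0) = (if w = v then h else 0 : ℕ) := fun w => by
    rw [ord_mkI, hπ, mult_pow w v]
  refine ⟨⟨v, h2⟩, h0, rfl, ?_, fun w hw => by rw [h3, if_neg hw, Nat.cast_zero]⟩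
  rw [h3, if_pos rfl, Int.cast_natCast]
  exact (ZMod.natCast_eq_one_iff_odd).2 hh

section Exp

variable {G : Type} [Group G] {N : ℕ} [NeZero N]

/-- powers of the inverse of `g` -/
def ex (g : G) (k : ZMod N) : G := g⁻¹ ^ k.val

theorem ex_add {g : G} (hg : orderOf g = N) (a b : ZMod N) : ex g (a + b) = ex g a * ex g b := by
  rw [ex, ex, ex, ← pow_add, ZMod.val_add]
  conv_rhs => rw [← pow_mod_orderOf, orderOf_inv, hg]

omit [NeZero N] in
theorem ex_zero (g : G) : ex g (0 : ZMod N) = 1 := by simp [ex]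

theorem ex_neg {g : G} (hg : orderOf g = N) (a : ZMod N) : ex g (-a) = (ex g a)⁻¹ :=
  eq_inv_of_mul_eq_one_left (by rw [← ex_add hg, neg_add_cancel, ex_zero])

omit [NeZero N] in
theorem ex_nat {g : G} (hg : orderOf g = N) (k : ℕ) : ex g (k : ZMod N) = (g ^ k)⁻¹ := by
  rw [ex, ZMod.val_natCast, ← inv_pow]
  conv_rhs => rw [← pow_mod_orderOf, orderOf_inv, hg]

theorem ex_inj {g : G} (hg : orderOf g = N) : Function.Injective (ex g : ZMod N → G) := by
  intro a b h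
  refine ZMod.val_injective N (pow_injOn_Iio_orderOf (x := g⁻¹) ?_ ?_ h) <;>
    rw [orderOf_inv, hg] <;> exact ZMod.val_lt _

end Exp

omit [NumberField F] in
theorem span_smul {G : Type} [Group G] [MulSemiringAction G F] {l h : ℕ} (s : G)
    (ψ : 𝓞 F →+* ZMod l) {π : 𝓞 F} (hπ : Ideal.span {π} = RingHom.ker ψ ^ h) :
    Ideal.span {s⁻¹ • π} = RingHom.ker (ψ.comp (MulSemiringAction.toRingHom G (𝓞 F) s)) ^ h := by
  have h1 := congrArg (Ideal.map (MulSemiringAction.toRingEquiv G (𝓞 F) s⁻¹)) hπ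
  rw [Ideal.map_span, Set.image_singleton, Ideal.map_pow] at h1
  refine h1.trans ?_
  congr 1
  ext x
  rw [Ideal.mem_map_of_equiv, RingHom.mem_ker]
  constructor
  · rintro ⟨y, hy, rfl⟩
    simpa using hy
  · intro hx
    exact ⟨s • x, hx, by simp⟩

end RF

theorem rowRF : OfRF := by
  intro cy _ un _ ra re dat n D l l' k hl hl' hk
  have hg : orderOf D.γ = 2 ^ n := (cy.gal D.F n D.θ D.γ D.cy).2.2.1
  obtain ⟨ψ, hψ, hπ⟩ := D.hom l hl
  obtain ⟨ψ', hψ', hπ'⟩ := D.hom l' hl'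
  obtain ⟨ρ₀, hρ, hρ'⟩ := D.sgn
  have hπ'' := RF.span_smul (RF.ex D.γ k) ψ' hπ'
  obtain ⟨p, h0, hp, hx⟩ := RF.exists_at hl.1 hl.2.1 D.odd ψ hπ
  obtain ⟨p', h0', hp', hy⟩ := RF.exists_at hl'.1 hl'.2.1 D.odd _ hπ''
  have hη0 : ∀ j : ZMod (2 ^ n), RF.ex D.γ j • D.η ≠ 0 := fun j h =>
    D.unit.ne_zero ((smul_eq_zero_iff_eq _).1 h)
  have hne : p ≠ p' := by
    rintro rfl
    have h1 : D.π l ∈ RingHom.ker ψ :=
      Ideal.pow_le_self D.odd.pos.ne' (hπ ▸ Ideal.mem_span_singleton_self _)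
    rw [← hp, hp'] at h1
    obtain ⟨h2, h3⟩ := dat.nz n D l l' k hl hl' ((hψ' _).trans h1)
    exact hk h2 h3
  have key := RF.core ra (fun j : ZMod (2 ^ n) => mkI _ (hη0 j))
    (fun j => ρ₀.comp (RF.ex D.γ j)⁻¹.toRingEquiv.toRingHom) (fun j => ?_) ⟨?_, ?_⟩ ?_
    (un.sq D.F n D.θ D.γ D.cy) (re.van D.F n D.θ D.γ D.cy) (re.prim D.F n D.θ D.γ D.cy) hx hy hne
    (D.pos l hl) fun ρ => D.pos l' hl' (ρ.comp (RF.ex D.γ k)⁻¹.toRingEquiv.toRingHom)
  · simp only [val_mkI, ra.qhom D.F _ l ψ hl.1 hp, ra.qhom D.F _ l' _ hl'.1 hp'] at key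
    rw [← Equiv.sum_comp (Equiv.neg (ZMod (2 ^ n)))] at key
    simp only [Dat.rr, Dat.cc, Dat.sy, hψ, hψ']
    change qr (ψ' (RF.ex D.γ k • D.π l)) + qr (ψ (RF.ex D.γ (-k) • D.π l')) =
      ∑ j, qr (ψ (RF.ex D.γ (-j) • D.η)) * qr (ψ' (RF.ex D.γ (k - j) • D.η))
    rw [RF.ex_neg hg k]
    refine key.trans (sum_congr rfl fun j _ => ?_)
    rw [sub_eq_add_neg, RF.ex_add hg, mul_smul]
    rfl
  · obtain ⟨u, hu⟩ := D.unit.map (MulSemiringAction.toRingHom _ (𝓞 D.F) (RF.ex D.γ j))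
    exact (un.int D.F _).2 ⟨u, by rw [hu]; rfl⟩
  · intro i j h
    refine RF.ex_inj hg (inv_injective (AlgEquiv.ext fun x => ρ₀.injective ?_))
    exact DFunLike.congr_fun h x
  · intro ρ
    obtain ⟨m, hm⟩ := (cy.real D.F n D.θ D.γ D.cy).2.2 ρ₀ ρ
    refine ⟨m, RingHom.ext fun x => ?_⟩
    beta_reduce
    rw [hm x, RF.ex_nat hg, inv_inv]
    rfl
  · intro j ρ
    have h1 : ρ (mkI _ (hη0 j)).val = (ρ.comp (RF.ex D.γ j).toRingEquiv.toRingHom) D.η := rfl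
    rw [h1]
    constructor
    · intro h
      by_contra h2
      refine (hρ' _ fun h3 => h2 ?_).not_gt h
      rw [← h3]
      ext x
      simp
    · rintro rfl
      simpa using hρ

end Pool.Agent.MP_1246c0_nt.H12
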