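import Pool.Agent.MP_1246c0_nt.H12.SpecR

/-! Reduction to a short list of modules. -/

namespace Pool.Agent.MP_1246c0_nt.H12

open Polynomial Finset

namespace WIN

section Transfer

variable {Λ ι G G' : Type} [CommRing Λ] [Fintype ι] [DecidableEq ι] [AddCommGroup G] [Module Λ G]
  [AddCommGroup G'] [Module Λ G']

omit [Fintype ι] in
theorem xv_map (φ : G →ₗ[Λ] G') {u : Module.End Λ G} {u' : Module.End Λ G'}
    (h : ∀ x, φ (u x) = u' (φ x)) (P : Finset ι) (b : Bool) (g : ι → G) :
    xv P b u' (fun l => φ (g l)) = fun l => φ (xv P b u g l) := by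
  funext l
  unfold xv
  split_ifs <;> simp [h]

omit [Fintype ι] in
theorem rv_map (φ : G →ₗ[Λ] G') {u : Module.End Λ G} {u' : Module.End Λ G'}
    (h : ∀ x, φ (u x) = u' (φ x)) (P : Finset ι) (o : Λ) (b : Bool) (g : ι → G) (l : ι) :
    rv P o b u' (fun l => φ (g l)) l = φ (rv P o b u g l) := by
  unfold rv
  rw [xv_map φ h]
  split_ifs
  · rw [map_add, map_smul, map_sum]
  · rw [h, map_add φ, map_smul φ, map_sum φ]
  · rw [map_zero]

omit [DecidableEq ι] in
theorem ap_map (φ : G →ₗ[Λ] G') (S : Matrix ι ι Λ) (x : ι → G) (l : ι) :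
    ap S (fun l => φ (x l)) l = φ (ap S x l) := by
  simp [ap, map_sum]

theorem sol_map (φ : G →ₗ[Λ] G') {u : Module.End Λ G} {u' : Module.End Λ G'}
    (h : ∀ x, φ (u x) = u' (φ x)) {S : Matrix ι ι Λ} {c : ι → Λ} {P : Finset ι} {o : Λ}
    {b : Bool} {g : ι → G} (hs : Sol S c P o b u g) : Sol S c P o b u' fun l => φ (g l) := by
  refine ⟨fun l => ?_, ?_⟩
  · rw [xv_map φ h, ap_map, rv_map φ h, hs.1 l]
  · rw [xv_map φ h]
    have := congrArg φ hs.2
    simpa [map_sum] using this

theorem sol_of_map (φ : G →ₗ[Λ] G') (hφ : Function.Injective φ) {u : Module.End Λ G}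
    {u' : Module.End Λ G'} (h : ∀ x, φ (u x) = u' (φ x)) {S : Matrix ι ι Λ} {c : ι → Λ}
    {P : Finset ι} {o : Λ} {b : Bool} {g : ι → G} (hs : Sol S c P o b u' fun l => φ (g l)) :
    Sol S c P o b u g := by
  refine ⟨fun l => hφ ?_, hφ ?_⟩
  · have := hs.1 l
    rwa [xv_map φ h, ap_map, rv_map φ h] at this
  · have := hs.2
    rw [xv_map φ h] at this
    simpa [map_sum] using this

end Transfer

section Index

variable {R : Type} [CommRing R]

/-- the elements that `p` multiplies into `I` -/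
def cl (I : Ideal R) (p : R) : Ideal R := Submodule.comap (LinearMap.toSpanSingleton R R p) I

theorem mem_cl {I : Ideal R} {p r : R} : r ∈ cl I p ↔ r * p ∈ I := Iff.rfl

/-- the index of an ideal -/
noncomputable def ix (I : Ideal R) : ℕ := Nat.card (R ⧸ I)

theorem ix_eq (I : Ideal R) : ix I = I.toAddSubgroup.index := rfl

theorem ix_dvd {I J : Ideal R} (h : I ≤ J) : ix J ∣ ix I :=
  AddSubgroup.index_dvd_of_le (H := I.toAddSubgroup) (K := J.toAddSubgroup) h

theorem ix_eq_one {I : Ideal R} : ix I = 1 ↔ I = ⊤ := by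
  rw [ix_eq, AddSubgroup.index_eq_one, Submodule.toAddSubgroup_eq_top]

theorem ix_cl (I : Ideal R) (p : R) : ix I = ix (cl I p) * ix (I ⊔ Ideal.span {p}) := by
  have h1 : (cl I p).toAddSubgroup = I.toAddSubgroup.comap (AddMonoidHom.mulRight p) := rfl
  have h2 : (Ideal.span {p}).toAddSubgroup = (AddMonoidHom.mulRight p).range := by
    ext x
    simp [Ideal.mem_span_singleton']
  rw [ix_eq, ix_eq, ix_eq, h1, AddSubgroup.index_comap, Submodule.sup_toAddSubgroup, h2,
    ← AddSubgroup.relIndex_sup_left, AddSubgroup.relIndex_mul_index le_sup_left]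

theorem cl_cl (I : Ideal R) (p q : R) : cl (cl I p) q = cl I (q * p) := by
  ext r
  simp [mem_cl, mul_assoc]

theorem cl_one (I : Ideal R) : cl I 1 = I := by
  ext r
  simp [mem_cl]

theorem ix_cl_ne {I : Ideal R} (h : ix I ≠ 0) (p : R) : ix (cl I p) ≠ 0 := by
  rw [ix_cl I p] at h
  exact left_ne_zero_of_mul h

theorem ix_le {I : Ideal R} {p : R} {n : ℕ} (h0 : ix (Ideal.span {p}) ≠ 0)
    (h : ix (Ideal.span {p}) ≤ n) : ix I ≤ ix (cl I p) * n := by
  rw [ix_cl I p]
  exact Nat.mul_le_mul_left _ ((Nat.le_of_dvd (Nat.pos_of_ne_zero h0) (ix_dvd le_sup_right)).trans h)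

theorem ix_le_pow {I : Ideal R} {p : R} {n : ℕ} (h0 : ix (Ideal.span {p}) ≠ 0)
    (h : ix (Ideal.span {p}) ≤ n) (k : ℕ) : ix I ≤ ix (cl I (p ^ k)) * n ^ k := by
  induction k with
  | zero => simp [cl_one]
  | succ k ih =>
    refine ih.trans ?_
    rw [pow_succ' p, ← cl_cl, pow_succ' n, ← mul_assoc]
    exact Nat.mul_le_mul_right _ (ix_le h0 h)

theorem pow_le_ix {I : Ideal R} (h0 : ix I ≠ 0) {t : R} (ht : IsNilpotent t) (k : ℕ)
    (hk : t ^ k ∉ I) : 2 ^ (k + 1) ≤ ix I := by
  have key : ∀ J : Ideal R, ix J ≠ 0 → J ≠ ⊤ → 2 * ix (cl J t) ≤ ix J := by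
    intro J hJ hJ'
    have h1 : ix (J ⊔ Ideal.span {t}) ≠ 0 := by
      rw [ix_cl J t] at hJ
      exact right_ne_zero_of_mul hJ
    have h2 : ix (J ⊔ Ideal.span {t}) ≠ 1 := by
      rw [Ne, ix_eq_one, Ideal.eq_top_iff_one, Submodule.mem_sup]
      rintro ⟨y, hy, z, hz, hyz⟩
      obtain ⟨a, rfl⟩ := Ideal.mem_span_singleton'.1 hz
      have hn : IsNilpotent (a * t) := (Commute.all a t).isNilpotent_mul_left ht
      have hu := hn.isUnit_one_sub
      rw [← hyz, add_sub_cancel_right] at hu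
      exact hJ' (J.eq_top_of_isUnit_mem hy hu)
    rw [ix_cl J t, mul_comm]
    exact Nat.mul_le_mul_left _ (by omega)
  induction k generalizing I with
  | zero =>
    have h1 : I ≠ ⊤ := by
      rintro rfl
      exact hk Submodule.mem_top
    have := key I h0 h1
    have h2 := ix_cl_ne h0 t
    omega
  | succ k ih =>
    have h1 : I ≠ ⊤ := by
      rintro rfl
      exact hk Submodule.mem_top
    have h2 := key I h0 h1
    have h3 := ih (ix_cl_ne h0 t) (by rwa [mem_cl, ← pow_succ])
    rw [pow_succ]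
    omega

theorem ix_monic [Finite R] {q : R[X]} (hq : q.Monic) :
    ix (Ideal.span {q}) = Nat.card R ^ q.natDegree := by
  have e := (AdjoinRoot.powerBasisAux' hq).equivFun.toEquiv
  have := Nat.card_congr e
  rw [Nat.card_fun, Nat.card_eq_fintype_card (α := Fin _), Fintype.card_fin] at this
  exact this

end Index

section Dual

/-- additive characters with values in the field with two elements -/
def D (A : Type) [CommRing A] : Type := A →+ F2

noncomputable instance (A : Type) [CommRing A] : AddCommGroup (D A) :=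
  inferInstanceAs (AddCommGroup (A →+ F2))

/-- the underlying additive map -/
def D.hom {A : Type} [CommRing A] (μ : D A) : A →+ F2 := μ

/-- an additive map as a character -/
def mkD {A : Type} [CommRing A] (μ : A →+ F2) : D A := μ

variable {Λ A A' : Type} [CommRing Λ] [CommRing A] [Algebra Λ A] [CommRing A'] [Algebra Λ A']

theorem D.ext {μ ν : D A} (h : ∀ x, μ.hom x = ν.hom x) : μ = ν := AddMonoidHom.ext h

@[simp] theorem hom_mkD (μ : A →+ F2) : (mkD μ).hom = μ := rfl

@[simp] theorem hom_add (μ ν : D A) (x : A) : (μ + ν).hom x = μ.hom x + ν.hom x := rfl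

@[simp] theorem hom_zero (x : A) : (0 : D A).hom x = 0 := rfl

noncomputable instance : SMul Λ (D A) :=
  ⟨fun h μ => mkD (μ.hom.comp (AddMonoidHom.mulLeft (algebraMap Λ A h)))⟩

@[simp] theorem hom_smul (h : Λ) (μ : D A) (x : A) :
    (h • μ).hom x = μ.hom (algebraMap Λ A h * x) := rfl

noncomputable instance : Module Λ (D A) where
  one_smul μ := D.ext fun x => by simp
  mul_smul a b μ := D.ext fun x => by
    simp only [hom_smul, map_mul]
    congr 1
    ring
  smul_zero a := D.ext fun x => by simp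
  smul_add a μ ν := D.ext fun x => by simp
  add_smul a b μ := D.ext fun x => by simp [add_mul]
  zero_smul μ := D.ext fun x => by simp

variable (Λ) in
/-- precomposition with a multiplication -/
noncomputable def ml (a : A) : Module.End Λ (D A) where
  toFun μ := mkD (μ.hom.comp (AddMonoidHom.mulLeft a))
  map_add' μ ν := D.ext fun x => by simp
  map_smul' h μ := D.ext fun x => by simp [mul_left_comm]

@[simp] theorem hom_ml (a : A) (μ : D A) (x : A) : (ml Λ a μ).hom x = μ.hom (a * x) := rfl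

theorem ml_comm (a a' : A) (μ : D A) : ml Λ a (ml Λ a' μ) = ml Λ a' (ml Λ a μ) :=
  D.ext fun x => by simp [mul_left_comm]

/-- precomposition with an algebra map -/
noncomputable def pb (π : A →ₐ[Λ] A') : D A' →ₗ[Λ] D A where
  toFun μ := mkD (μ.hom.comp (π : A →+ A'))
  map_add' μ ν := D.ext fun x => by simp
  map_smul' h μ := D.ext fun x => by simp

@[simp] theorem hom_pb (π : A →ₐ[Λ] A') (μ : D A') (x : A) : (pb π μ).hom x = μ.hom (π x) := rfl

theorem card_D (hq : SQF) [Finite A] (h2 : ∀ x : A, x + x = 0) : Nat.card (D A) = Nat.card A :=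
  (hq.dual A h2).1

theorem finite_D (hq : SQF) [Finite A] (h2 : ∀ x : A, x + x = 0) : Finite (D A) :=
  Nat.finite_of_card_ne_zero (by rw [card_D hq h2]; exact Nat.card_pos.ne')

theorem top_of_ann (hq : SQF) [Finite A] (h2 : ∀ x : A, x + x = 0) (W : AddSubgroup (D A))
    (h : ∀ x : A, (∀ μ ∈ W, D.hom μ x = 0) → x = 0) : W = ⊤ := by
  have := finite_D hq h2
  have hW : ∀ μ : W, μ + μ = 0 := fun μ => Subtype.ext (D.ext fun x => by
    simp [CharTwo.add_self_eq_zero])
  have h1 := (hq.dual W hW).1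
  have : Finite (W →+ F2) := Nat.finite_of_card_ne_zero (by rw [h1]; exact Nat.card_pos.ne')
  let e : A →+ W →+ F2 :=
    { toFun := fun x => { toFun := fun μ => μ.1.hom x, map_zero' := rfl, map_add' := fun _ _ => rfl }
      map_zero' := by ext μ; simp
      map_add' := fun x y => by ext μ; simp }
  have he : Function.Injective e := (injective_iff_map_eq_zero e).2 fun x hx =>
    h x fun μ hμ => DFunLike.congr_fun hx ⟨μ, hμ⟩
  refine AddSubgroup.eq_top_of_le_card W ?_
  rw [card_D hq h2, ← h1]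
  exact Nat.card_le_card_of_injective e he

theorem card_le_units [Finite A] [Nontrivial A] (h : ∀ x : A, IsNilpotent x ∨ IsUnit x) :
    Nat.card A ≤ 2 * Nat.card Aˣ := by
  classical
  let e : A → Bool × Aˣ := fun x =>
    if hx : IsUnit x then (true, hx.unit)
    else (false, ((h x).resolve_right hx).isUnit_one_add.unit)
  have he : Function.Injective e := by
    intro x y hxy
    by_cases hx : IsUnit x <;> by_cases hy : IsUnit y <;>
      simp only [e, hx, hy, dif_pos, dif_neg, not_false_eq_true, Prod.mk.injEq] at hxy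
    · simpa using congrArg Units.val hxy.2
    · simp at hxy
    · simp at hxy
    · simpa using congrArg Units.val hxy.2
  have := Nat.card_le_card_of_injective e he
  rwa [Nat.card_prod, Nat.card_eq_fintype_card (α := Bool), Fintype.card_bool] at this

variable {ι : Type} [Fintype ι] [DecidableEq ι]

theorem units_le_sur (hq : SQF) [Finite A] (h2 : ∀ x : A, x + x = 0) {S : Matrix ι ι Λ}
    {c : ι → Λ} {P : Finset ι} {o : Λ} {b : Bool} {a : A} {g : ι → D A}
    (hs : Sol S c P o b (ml Λ a) g) (hg : Gen (ml Λ a) g) :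
    Nat.card Aˣ ≤ Sur S c P o b (ml Λ a) := by
  have := finite_D hq h2
  have gen : ∀ w : Aˣ, Gen (ml Λ a) fun l => ml Λ (w : A) (g l) := by
    intro w W hW hl
    have h1 : W.comap (ml Λ (w : A)) = ⊤ :=
      hg _ (fun μ hμ => by
        rw [Submodule.mem_comap, ml_comm]
        exact hW _ hμ) hl
    rw [eq_top_iff]
    intro μ _
    have h3 : ml Λ (↑w⁻¹ : A) μ ∈ W.comap (ml Λ (w : A)) := h1 ▸ Submodule.mem_top
    have h4 : ml Λ (w : A) (ml Λ (↑w⁻¹ : A) μ) = μ := D.ext fun x => by simp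
    rwa [Submodule.mem_comap, h4] at h3
  let e : Aˣ → {g : ι → D A // Sol S c P o b (ml Λ a) g ∧ Gen (ml Λ a) g} := fun w =>
    ⟨fun l => ml Λ (w : A) (g l), sol_map (ml Λ (w : A)) (fun μ => ml_comm _ _ μ) hs, gen w⟩
  refine Nat.card_le_card_of_injective e fun w w' hw => ?_
  have h1 : LinearMap.ker (ml Λ ((w : A) - w')) = ⊤ := by
    refine hg _ (fun μ hμ => ?_) fun l => ?_
    · rw [LinearMap.mem_ker] at hμ ⊢
      rw [ml_comm, hμ, map_zero]
    · have h3 : ml Λ (w : A) (g l) = ml Λ (w' : A) (g l) := congrFun (congrArg Subtype.val hw) l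
      refine D.ext fun x => ?_
      have h4 := congrArg (fun μ : D A => μ.hom x) h3
      simp only [hom_ml] at h4
      simp [sub_mul, h4]
  by_contra hne
  have h3 : (w : A) - w' ≠ 0 := sub_ne_zero.2 fun h => hne (Units.ext h)
  obtain ⟨μ, hμ⟩ := (hq.dual A h2).2.1 _ h3
  have h4 : mkD μ ∈ LinearMap.ker (ml Λ ((w : A) - w')) := h1 ▸ Submodule.mem_top
  have h5 := congrArg (fun ν : D A => ν.hom 1) (LinearMap.mem_ker.1 h4)
  simp only [hom_ml, hom_mkD, mul_one, hom_zero] at h5
  rw [h5] at hμ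
  exact zero_ne_one hμ

end Dual

section Ann

variable {Λ R ι : Type} [CommRing Λ] [CommRing R] [Algebra Λ R]

/-- the largest ideal on which a family of characters vanishes -/
def an (ν : ι → D R) : Ideal R where
  carrier := {r | ∀ l s, (ν l).hom (s * r) = 0}
  zero_mem' := fun l s => by simp
  add_mem' := fun {a b} ha hb l s => by rw [mul_add, map_add, ha l s, hb l s, add_zero]
  smul_mem' := fun a r hr l s => by
    rw [smul_eq_mul, ← mul_assoc]
    exact hr l _

theorem mem_an {ν : ι → D R} {r : R} : r ∈ an ν ↔ ∀ l s, (ν l).hom (s * r) = 0 := Iff.rfl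

theorem an_ml (ν : ι → D R) (p : R) : an (fun l => ml Λ p (ν l)) = cl (an ν) p := by
  ext r
  simp only [mem_an, mem_cl, hom_ml]
  refine forall_congr' fun l => forall_congr' fun s => ?_
  rw [show p * (s * r) = s * (r * p) by ring]

/-- the characters on the quotient -/
noncomputable def ds (ν : ι → D R) (l : ι) : D (R ⧸ an ν) :=
  mkD (QuotientAddGroup.lift (an ν).toAddSubgroup (ν l).hom fun r hr => by
    simpa using mem_an.1 hr l 1)

theorem hom_ds (ν : ι → D R) (l : ι) (r : R) :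
    (ds ν l).hom (Ideal.Quotient.mk (an ν) r) = (ν l).hom r := rfl

theorem sol_ds [Fintype ι] [DecidableEq ι] {S : Matrix ι ι Λ} {c : ι → Λ} {P : Finset ι} {o : Λ}
    {b : Bool} {a : R} {ν : ι → D R} (hs : Sol S c P o b (ml Λ a) ν) :
    Sol S c P o b (ml Λ (Ideal.Quotient.mk (an ν) a)) (ds ν) := by
  refine sol_of_map (pb (Ideal.Quotient.mkₐ Λ (an ν))) (u' := ml Λ a) ?_ (fun μ => ?_) hs
  · intro μ μ' h
    refine D.ext fun x => ?_
    obtain ⟨r, rfl⟩ := Ideal.Quotient.mk_surjective x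
    exact congrArg (fun κ : D R => κ.hom r) h
  · exact D.ext fun x => by simp

theorem two_quot (h : (2 : Λ) = 0) (x : R) : x + x = 0 := by
  rw [← two_mul, ← map_ofNat (algebraMap Λ R) 2, h, map_zero, zero_mul]

theorem gen_ds (hq : SQF) (h : (2 : Λ) = 0) (ν : ι → D Λ[X]) [Finite (Λ[X] ⧸ an ν)] :
    Gen (ml Λ (Ideal.Quotient.mk (an ν) X)) (ds ν) := by
  intro W hW hl
  have h1 : ∀ s : Λ[X], ∀ μ ∈ W, ml Λ (Ideal.Quotient.mk (an ν) s) μ ∈ W := by
    intro s
    induction s using Polynomial.induction_on with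
    | C a =>
      intro μ hμ
      exact W.smul_mem a hμ
    | add p q hp hq =>
      intro μ hμ
      have : ml Λ (Ideal.Quotient.mk (an ν) (p + q)) μ =
          ml Λ (Ideal.Quotient.mk (an ν) p) μ + ml Λ (Ideal.Quotient.mk (an ν) q) μ :=
        D.ext fun x => by simp [add_mul]
      rw [this]
      exact W.add_mem (hp μ hμ) (hq μ hμ)
    | monomial n a ih =>
      intro μ hμ
      have : ml Λ (Ideal.Quotient.mk (an ν) (C a * X ^ (n + 1))) μ =
          ml Λ (Ideal.Quotient.mk (an ν) X) (ml Λ (Ideal.Quotient.mk (an ν) (C a * X ^ n)) μ) :=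
        D.ext fun x => by simp only [hom_ml, pow_succ, map_mul, mul_assoc]
      rw [this]
      exact hW _ (ih μ hμ)
  rw [← Submodule.toAddSubgroup_eq_top]
  refine top_of_ann hq (two_quot h) _ fun x hx => ?_
  obtain ⟨r, rfl⟩ := Ideal.Quotient.mk_surjective x
  refine Ideal.Quotient.eq_zero_iff_mem.2 (mem_an.2 fun l s => ?_)
  have := hx _ (h1 s _ (hl l))
  rwa [hom_ml, ← map_mul, hom_ds] at this

end Ann

section Main

variable {Λ : Type} [CommRing Λ] {st : Λ →+* Λ} {au : Λ →+* F2} {τ : Λ} {N : ℕ}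

theorem card_le (h : LR st au τ N) : Nat.card Λ ≤ 2 ^ N := by
  have h1 : Ideal.span {τ} = RingHom.ker au := by
    ext x
    rw [Ideal.mem_span_singleton, RingHom.mem_ker, h.ker]
  have h2 : ix (Ideal.span {τ}) = 2 := by
    rw [h1, ix, Nat.card_congr
      (RingHom.quotientKerEquivOfSurjective (ZMod.ringHom_surjective au)).toEquiv, Nat.card_zmod]
  have h3 := ix_le_pow (I := ⊥) (p := τ) (n := 2) (by omega) h2.le N
  have h4 : ix (cl (⊥ : Ideal Λ) (τ ^ N)) = 1 := by
    rw [ix_eq_one, h.nil, eq_top_iff]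
    intro x _
    simp [mem_cl]
  rwa [h4, one_mul, ix, Nat.card_congr (RingEquiv.quotientBot Λ).toEquiv] at h3

theorem nil_of_map (h : LR st au τ N) {r : Λ[X]} (hr : r.map au = 0) : IsNilpotent r := by
  refine Polynomial.isNilpotent_iff.2 fun i => ?_
  have h1 : au (r.coeff i) = 0 := by rw [← coeff_map, hr, coeff_zero]
  obtain ⟨a, ha⟩ := (h.ker _).1 h1
  rw [ha]
  exact (Commute.all τ a).isNilpotent_mul_right ⟨N, h.nil⟩

theorem nil_or_unit (h : LR st au τ N) {p : Λ[X]} (hp : Irreducible (p.map au)) {I : Ideal Λ[X]}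
    (hn : IsNilpotent (Ideal.Quotient.mk I p)) (x : Λ[X] ⧸ I) : IsNilpotent x ∨ IsUnit x := by
  obtain ⟨r, rfl⟩ := Ideal.Quotient.mk_surjective x
  have hs := Polynomial.map_surjective au (ZMod.ringHom_surjective au)
  by_cases hd : p.map au ∣ r.map au
  · obtain ⟨t, ht⟩ := hd
    obtain ⟨s, rfl⟩ := hs t
    have h1 : IsNilpotent (r - p * s) :=
      nil_of_map h (by rw [Polynomial.map_sub, Polynomial.map_mul, ht, sub_self])
    left
    have h2 : Ideal.Quotient.mk I r =
        Ideal.Quotient.mk I (r - p * s) + Ideal.Quotient.mk I p * Ideal.Quotient.mk I s := by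
      rw [← map_mul, ← map_add, sub_add_cancel]
    rw [h2]
    exact (Commute.all _ _).isNilpotent_add (h1.map _)
      ((Commute.all _ _).isNilpotent_mul_right hn)
  · obtain ⟨a, b, hab⟩ := hp.coprime_iff_not_dvd.2 hd
    obtain ⟨a, rfl⟩ := hs a
    obtain ⟨b, rfl⟩ := hs b
    have h1 : IsNilpotent (a * p + b * r - 1) :=
      nil_of_map h (by
        rw [Polynomial.map_sub, Polynomial.map_add, Polynomial.map_mul, Polynomial.map_mul, hab,
          Polynomial.map_one, sub_self])
    right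
    have h2 : IsNilpotent (Ideal.Quotient.mk I (a * p + b * r - 1) -
        Ideal.Quotient.mk I a * Ideal.Quotient.mk I p) :=
      (Commute.all _ _).isNilpotent_sub (h1.map _) ((Commute.all _ _).isNilpotent_mul_left hn)
    have h3 := h2.isUnit_one_add
    have h4 : 1 + (Ideal.Quotient.mk I (a * p + b * r - 1) -
        Ideal.Quotient.mk I a * Ideal.Quotient.mk I p) =
        Ideal.Quotient.mk I b * Ideal.Quotient.mk I r := by
      rw [map_sub, map_add, map_mul, map_mul, map_one]
      ring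
    rw [h4] at h3
    exact isUnit_of_mul_isUnit_right h3

theorem card_pow {A : Type} [AddCommGroup A] [Finite A] (h2 : ∀ x : A, x + x = 0) :
    ∃ γ, Nat.card A = 2 ^ γ := by
  let : Module (ZMod 2) A := AddCommGroup.zmodModule fun x => by rw [two_nsmul, h2]
  have : Module.Finite (ZMod 2) A := Module.Finite.of_finite
  exact ⟨_, by rw [Module.natCard_eq_pow_finrank (K := ZMod 2), Nat.card_zmod]⟩

theorem exists_step (a : ℕ → ℕ) (n K : ℕ) (h0 : n ≤ a 0) (hK : a K < n) :
    ∃ k, n ≤ a k ∧ a (k + 1) < n := by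
  by_contra hne
  push Not at hne
  have : ∀ k, n ≤ a k := fun k => by
    induction k with
    | zero => exact h0
    | succ k ih => exact hne k ih
  exact absurd (this K) (not_le.2 hK)

/-- the characters attached to the elements of a module -/
noncomputable def ps {G : Type} [AddCommGroup G] [Module Λ G] (u : Module.End Λ G)
    (lam : G →+ F2) : G →ₗ[Λ] D Λ[X] where
  toFun w := mkD
    { toFun := fun r => lam (aeval u r w)
      map_zero' := by simp
      map_add' := fun r s => by simp }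
  map_add' v w := D.ext fun r => by simp
  map_smul' h w := D.ext fun r => by simp

theorem hom_ps {G : Type} [AddCommGroup G] [Module Λ G] (u : Module.End Λ G) (lam : G →+ F2)
    (w : G) (r : Λ[X]) : (ps u lam w).hom r = lam (aeval u r w) := rfl

theorem main (hq : SQF) [Finite Λ] (h : LR st au τ N) (hN : 1 ≤ N) {ι : Type} [Fintype ι]
    [DecidableEq ι] {S : Matrix ι ι Λ} {c : ι → Λ} {P : Finset ι} {b : Bool} {f : ℕ}
    (hb : BadM au τ N f S c P b) : ∃ (I : Ideal Λ[X]) (γ : ℕ), N ≤ γ ∧ γ ≤ N + N * f ∧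
      Nat.card (Λ[X] ⧸ I) = 2 ^ γ ∧
      2 ^ γ ≤ 2 * Sur S c P 0 b (ml Λ (Ideal.Quotient.mk I X)) := by
  obtain ⟨G, _, _, _, u, p, hp, hd, hirr, ⟨K, hK⟩, g, hs, l0, hl0⟩ := hb
  have hG : ∀ x : G, x + x = 0 := fun x => by rw [← two_smul Λ, h.two, zero_smul]
  obtain ⟨lam, hlam⟩ := (hq.dual G hG).2.1 _ hl0
  set ν : ι → D Λ[X] := fun l => ps u lam (g l) with hν
  have hsν : Sol S c P 0 b (ml Λ X) ν :=
    sol_map (ps u lam) (fun w => D.ext fun r => by
      rw [hom_ml, hom_ps, hom_ps, mul_comm X r, map_mul, aeval_X, Module.End.mul_apply]) hs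
  have hpK : p ^ K ∈ an ν := mem_an.2 fun l s => by
    rw [hom_ps, map_mul, map_pow, hK, mul_zero, LinearMap.zero_apply, map_zero]
  have hΛ : Nat.card Λ ≠ 0 := Nat.card_pos.ne'
  have h0 : ix (an ν) ≠ 0 :=
    ne_zero_of_dvd_ne_zero (by rw [ix_monic (hp.pow K)]; exact pow_ne_zero _ hΛ)
      (ix_dvd ((Ideal.span_singleton_le_iff_mem _).2 hpK))
  have h1 : 2 ^ N ≤ ix (an ν) := by
    have := pow_le_ix h0 (t := C τ) ⟨N, by rw [← C_pow, h.nil, C_0]⟩ (N - 1) fun hm => by
      have h2 := mem_an.1 hm l0 1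
      rw [one_mul, hom_ps, ← C_pow, aeval_C, Module.algebraMap_end_apply, hlam] at h2
      exact one_ne_zero h2
    rwa [Nat.sub_add_cancel hN] at this
  have h2 : ix (Ideal.span {p}) ≠ 0 := by
    rw [ix_monic hp]
    exact pow_ne_zero _ hΛ
  have h3 : ix (Ideal.span {p}) ≤ 2 ^ (N * f) := by
    rw [ix_monic hp, pow_mul]
    exact (Nat.pow_le_pow_left (card_le h) _).trans (Nat.pow_le_pow_right (by positivity) hd)
  have h4 : 1 < 2 ^ N := Nat.one_lt_two_pow (by omega)
  obtain ⟨k, hk, hk'⟩ := exists_step (fun k => ix (cl (an ν) (p ^ k))) (2 ^ N) K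
    (by simpa [cl_one] using h1) (by
      have : cl (an ν) (p ^ K) = ⊤ := by
        rw [Ideal.eq_top_iff_one, mem_cl, one_mul]
        exact hpK
      rw [this, ix_eq_one.2 rfl]
      exact h4)
  have h5 : ix (cl (an ν) (p ^ k)) ≤ 2 ^ (N + N * f) := by
    refine (ix_le h2 h3).trans ?_
    rw [cl_cl, ← pow_succ', pow_add 2]
    exact Nat.mul_le_mul_right _ hk'.le
  have hpK' : p ^ K ∈ cl (an ν) (p ^ k) := mem_cl.2 (Ideal.mul_mem_right _ _ hpK)
  rw [← an_ml (Λ := Λ)] at hk h5 hpK'
  set ν' : ι → D Λ[X] := fun l => ml Λ (p ^ k) (ν l) with hν'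
  have hs' : Sol S c P 0 b (ml Λ X) ν' := sol_map (ml Λ (p ^ k)) (fun μ => ml_comm _ _ μ) hsν
  have : Finite (Λ[X] ⧸ an ν') := Nat.finite_of_card_ne_zero (by
    change ix (an ν') ≠ 0
    omega)
  have : Nontrivial (Λ[X] ⧸ an ν') := Finite.one_lt_card_iff_nontrivial.1 (h4.trans_le hk)
  obtain ⟨γ, hγ⟩ := card_pow (A := Λ[X] ⧸ an ν') (two_quot h.two)
  rw [ix, hγ] at hk h5
  refine ⟨an ν', γ, (Nat.pow_le_pow_iff_right (by norm_num)).1 hk,
    (Nat.pow_le_pow_iff_right (by norm_num)).1 h5, hγ, ?_⟩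
  rw [← hγ]
  refine (card_le_units (nil_or_unit h hirr ⟨K, ?_⟩)).trans (Nat.mul_le_mul_left _
    (units_le_sur hq (two_quot h.two) (sol_ds hs') (gen_ds hq h.two ν')))
  rw [← map_pow]
  exact Ideal.Quotient.eq_zero_iff_mem.2 hpK'

end Main

end WIN

theorem rowWIN : OfWIN := by
  intro hq Λ _ _ st au τ N h hN
  refine ⟨fun I => WIN.D (Λ[X] ⧸ I), fun _ => inferInstance, fun _ => inferInstance,
    fun I => WIN.ml Λ (Ideal.Quotient.mk I X), fun I γ hγ => ?_,
    fun ι _ _ S c P b f hb => WIN.main hq h hN hb⟩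
  have : Finite (Λ[X] ⧸ I) := Nat.finite_of_card_ne_zero (by rw [hγ]; positivity)
  rw [WIN.card_D hq (WIN.two_quot h.two), hγ]

end Pool.Agent.MP_1246c0_nt.H12
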