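import Pool.Agent.MP_1246c0_nt.H14.XGRSa

/-! Cancellation on a grid of primes for one type. -/

namespace Pool.Agent.MP_1246c0_nt.H25

open Finset Matrix Function Pool.Agent.MP_db5b97_nt.H85
open Pool.Agent.MP_1246c0_nt.H12

namespace GRS

variable {ι : Type} [Fintype ι] [DecidableEq ι] {ℓ k M κ : ℕ}

/-- the bound for one condition -/
def B0 (ℓ k κ : ℕ) : ℕ := 2 ^ κ * 2 ^ (ℓ * (2 * (k + 1) + 1))

theorem B0_pos : 0 < B0 ℓ k κ := by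
  rw [B0]
  positivity

namespace Ctx

variable {c : Ctx ι ℓ k M κ}

theorem card_U : Nat.card c.U ≤ 2 ^ κ := c.us0

theorem card_Ty : Nat.card c.Ty ≤ (2 ^ 2 ^ κ) ^ k * 2 := by
  classical
  have := Fintype.ofFinite c.U
  have h := card_U (c := c)
  rw [Nat.card_eq_fintype_card] at h ⊢
  rw [Fintype.card_prod, Fintype.card_fun, Fintype.card_set, Fintype.card_prop, Fintype.card_coe,
    Nat.card_Icc]
  exact Nat.mul_le_mul_right _ (Nat.pow_le_pow_left (Nat.pow_le_pow_right two_pos h) _)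

theorem gf_up {t : c.Ty} {W W' : Finset (Option (Fin k))} (hW : W' ⊆ W) {o : Option (Fin k)}
    {x0 x1 : Option (Fin k) → Fin M} {z : Fin M} {i : ↥(Icc 2 (k + 1))} {v : c.U} (hv : v ∈ t.1 i)
    (h : Gf (fun x => c.ty x = some t) (c.C t) (W.erase o) (update x0 o z) x1) :
    Gf (· ∈ c.T '' {x | c.ty x = some t}) (Cd c.S.Φ c.D i.1 (c.psi i.1 v.1) (c.Gam v.1))
      ((W'.map c.e).erase (c.e o)) (update (c.T x0) (c.e o) (val c.ζ c.ps o z)) (c.T x1) := by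
  intro W2 h2
  rw [← map_erase, subset_map_iff] at h2
  obtain ⟨W3, h3, rfl⟩ := h2
  have h4 := h W3 (h3.trans (erase_subset_erase o hW))
  rw [tup_up, tup_pw]
  exact ⟨⟨_, h4.1, rfl⟩, h4.2 i v hv⟩

theorem as (t : c.Ty) :
    As (fun x => c.ty x = some t) (c.C t) (B0 ℓ k κ ^ (k * (2 ^ κ * 2 ^ (k + 1)))) := by
  classical
  refine ⟨fun W x0 x1 x1' h hc i v hv => ?_, fun x0 x1 i v _ => ?_, fun W o x0 x1 ho => ?_⟩
  · refine (c.AMQ.loc ι ℓ _ _ _ _ _ _ _ _ _).2 (fun l hl => ?_) (hc i v hv)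
    obtain ⟨o, ho, rfl⟩ := mem_map.1 hl
    rw [T, T, tup_e, tup_e, h o ho]
  · rw [map_empty]
    exact (c.AMQ.loc ι ℓ _ _ ∅ _ _ _ _ _ (c.T x1)).1
  have := Fintype.ofFinite c.U
  let E : ↥(Icc 2 (k + 1)) × c.U × Finset (Option (Fin k)) → Fin M → Fin M → Prop :=
    fun p z z' => p.2.1 ∈ t.1 p.1 ∧ p.2.2 ⊆ W ∧ o ∈ p.2.2 →
      Cd c.S.Φ c.D p.1.1 (c.psi p.1.1 p.2.1.1) (c.Gam p.2.1.1) (p.2.2.map c.e)
        (update (c.T x0) (c.e o) (val c.ζ c.ps o z)) (update (c.T x1) (c.e o) (val c.ζ c.ps o z'))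
  have eq : ∀ (i : ℕ) (v : Option ι → Vb ℓ) (W' : Finset (Option (Fin k))), o ∈ W' →
      Equivalence fun z z' => Cd c.S.Φ c.D i (c.psi i v) (c.Gam v) (W'.map c.e)
        (update (c.T x0) (c.e o) z) (update (c.T x1) (c.e o) z') := fun i v W' h =>
    c.AMQ.eqv ι ℓ _ _ _ _ _ _ _ _ _ (mem_map_of_mem _ h)
  obtain ⟨lam, hl⟩ := c.LAB (Fin M) _ (fun p => p.2.2.card)
    (fun p' p => p'.1 = p.1 ∧ p'.2.1 = p.2.1 ∧ p'.2.2 ⊂ p.2.2) E
    {z | Gf (fun x => c.ty x = some t) (c.C t) (W.erase o) (update x0 o z) x1} (B0 ℓ k κ) B0_pos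
    (fun p => ⟨fun z h => (eq _ _ _ h.2.2).refl _, fun h1 h => (eq _ _ _ h.2.2).symm (h1 h),
      fun h1 h2 h => (eq _ _ _ h.2.2).trans (h1 h) (h2 h)⟩)
    (fun p' p h => card_lt_card h.2.2) fun ⟨i, v, W'⟩ z' hz' A hA hn => by
      by_cases hc : v ∈ t.1 i ∧ W' ⊆ W ∧ o ∈ W'
      swap
      · refine (card_le_one.2 fun z hz y hy => ?_).trans B0_pos
        by_contra h
        exact hn z hz y hy h fun h' => absurd h' hc
      have hY : ∀ x ∈ {x | c.ty x = some t}, c.Ok x := fun x hx => (ty_iff.1 hx).1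
      have hi := mem_Icc.1 i.2
      have inj : Set.InjOn (val c.ζ c.ps o) A := fun z hz y hy h => by
        by_contra h'
        refine hn z hz y hy h' fun _ => ?_
        rw [h]
        exact (eq _ _ _ hc.2.2).refl _
      rw [← card_image_of_injOn inj, B0, ← D_card (c := c)]
      refine c.AMQ.amb ι ℓ c.S.Φ c.μ c.P c.J i.1 _ c.i1 c.D (W'.map c.e) (c.e none) c.b (c.e o) _
        v.1 (c.psi i.1 v.1) (c.Gam v.1) (c.T x0) (c.T x1) (val c.ζ c.ps o z') _ c.ax.one c.ok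
        (cb hY) (gm hY v.1).1 hi.1 (hi.2.trans c.hJ) (v_zero v) ?_
        (map_subset_map.2 (subset_univ _)) (mem_map_of_mem _ hc.2.2)
        (gf_up hc.2.1 hc.1 hz') (fun y hy => ?_) fun y hy y' hy' hne => ?_
      · rintro _ ⟨x, hx, rfl⟩
        obtain ⟨h1, rfl⟩ := ty_iff.1 hx
        exact ⟨(psi_spec hc.1).1, (psi_spec hc.1).2, by rw [us_eq h1]; exact c.us0⟩
      · obtain ⟨z, hz, rfl⟩ := mem_image.1 hy
        refine ⟨gf_up hc.2.1 hc.1 (hA z hz).1, fun W2 h2 h3 h4 => ?_⟩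
        obtain ⟨W3, h5, rfl⟩ := subset_map_iff.1 h2
        exact (hA z hz).2 (i, v, W3) ⟨rfl, rfl, h5.ssubset_of_ne fun h => h3 (by rw [h])⟩
          ⟨hc.1, h5.trans hc.2.1, (mem_map' _).1 h4⟩
      · obtain ⟨z, hz, rfl⟩ := mem_image.1 hy
        obtain ⟨z2, hz2, rfl⟩ := mem_image.1 hy'
        exact fun h => hn z hz z2 hz2 (fun e => hne (by rw [e])) fun _ => h
  have hle : B0 ℓ k κ ^ Fintype.card (↥(Icc 2 (k + 1)) × c.U × Finset (Option (Fin k))) ≤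
      B0 ℓ k κ ^ (k * (2 ^ κ * 2 ^ (k + 1))) := by
    refine Nat.pow_le_pow_right B0_pos ?_
    have h := card_U (c := c)
    rw [Nat.card_eq_fintype_card] at h
    rw [Fintype.card_prod, Fintype.card_prod, Fintype.card_coe, Nat.card_Icc, Fintype.card_finset,
      Fintype.card_option, Fintype.card_fin]
    exact Nat.mul_le_mul_left _ (Nat.mul_le_mul_right _ h)
  refine ⟨fun z => Fin.castLE hle (lam z), fun z z' h1 h2 h W' hW ho' i v hv => ?_⟩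
  have := hl z h1 z' h2 (Fin.castLE_injective _ h) (i, v, W') ⟨hv, hW, ho'⟩
  rwa [tup_up, tup_up] at this

section Last

variable {t : c.Ty} {x0 x1 : Option (Fin k) → Fin M}
  (hf : ∀ W, W ≠ univ → c.ty (W.piecewise x1 x0) = some t ∧ c.C t W x0 x1)

include hf

theorem ok_last : c.Ok x1 := by
  have h : ∀ l l', ∃ y, c.Ok y ∧ c.T y l = c.T x1 l ∧ c.T y l' = c.T x1 l' := fun l l' => by
    obtain ⟨W, h1, h2⟩ := pair c.e c.xs c.ζ c.ps c.hk x0 x1 l l'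
    exact ⟨_, (ty_iff.1 (hf W h1).1).1, h2⟩
  refine ⟨⟨fun l l' e => ?_, fun l => ?_, c.lb0.prime, c.lb0.md, fun l => ?_, ?_⟩,
    Prod.ext (funext fun l => ?_) (funext₂ fun l l' => ?_)⟩
  · obtain ⟨y, h1, h2, h3⟩ := h l l'
    exact h1.1.inj (h2.trans (e.trans h3.symm))
  · obtain ⟨y, h1, h2, -⟩ := h l l
    exact h2 ▸ h1.1.odd l
  · obtain ⟨y, h1, h2, -⟩ := h l l
    exact h2 ▸ h1.1.ne l
  · obtain ⟨y, h1, h2, -⟩ := h c.i1 c.i1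
    exact h2 ▸ h1.1.five
  · obtain ⟨y, h1, h2, -⟩ := h l l
    rw [← h1.2]
    exact congrArg (own c.S c.μ.n c.P) h2.symm
  · obtain ⟨y, h1, h2, h3⟩ := h l l'
    rw [← h1.2]
    change fl _ _ _ _ = fl _ _ _ _
    rw [h2, h3]

theorem ok_all (W : Finset (Option (Fin k))) : c.Ok (W.piecewise x1 x0) := by
  rcases eq_or_ne W univ with rfl | h
  · rw [piecewise_univ]
    exact ok_last hf
  · exact (ty_iff.1 (hf W h).1).1

theorem vx : Vx (c.T '' {x | c.Ok x}) c.D (c.T x0) (c.T x1) := fun W hW => by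
  obtain ⟨W, -, rfl⟩ := subset_map_iff.1 hW
  exact ⟨_, ok_all hf W, (tup_pw _ _ _ _ _ _ _).symm⟩

theorem mem_vs {i : ↥(Icc 2 (k + 1))} {v : c.U} (hv : v ∈ t.1 i) {W : Finset (Option (Fin k))}
    (hW : W ≠ univ) : v.1 ∈ Vs c.S.Φ c.μ (c.T (W.piecewise x1 x0)) c.P i.1 := by
  rw [← (ty_iff.1 (hf W hW).1).2] at hv
  exact hv

theorem close {i : ↥(Icc 2 (k + 1))} {v : c.U} (hv : v ∈ t.1 i) :
    CC c.S.Φ c.μ (c.T x1) c.P i.1 (clo c.D (c.T x0) (c.T x1) (c.psi i.1 v.1) (c.Gam v.1)) ∧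
      red c.S.Φ (c.T x1) (clo c.D (c.T x0) (c.T x1) (c.psi i.1 v.1) (c.Gam v.1)) = v.1 := by
  have hi := mem_Icc.1 i.2
  have h := c.CLO ι ℓ c.S.Φ c.μ c.P c.J i.1 c.i1 c.D (c.e none) c.b _ v.1 (c.psi i.1 v.1)
    (c.Gam v.1) (c.T x0) (c.T x1) c.ax.one c.ok (cb fun _ h => h) (gm (fun _ h => h) v.1).1 hi.1
    (hi.2.trans D_card.ge) (D_card.trans_le c.hJ) (vx hf) (v_zero v) fun W hW hne => by
      obtain ⟨W, -, rfl⟩ := subset_map_iff.1 hW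
      have h1 : W ≠ univ := fun h => hne (by rw [h])
      rw [tup_pw]
      exact ⟨(psi_spec (mem_vs hf hv h1)).1, (psi_spec (mem_vs hf hv h1)).2, (hf W h1).2 i v hv⟩
  rwa [tup_pw, piecewise_univ] at h

theorem key (i : ℕ) (v : Option ι → Vb ℓ) (j : ℕ) (hj : j ≤ k + 1)
    (f : Finset (Option (Fin k)) → ℤ) (h : ∀ W, W ≠ univ →
      Pw c.S.Φ c.μ (c.T (W.piecewise x1 x0)) c.P c.w (c.psi i v (c.T (W.piecewise x1 x0))) =
        2 ^ j * f W) :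
    ∃ m : ℤ, Pw c.S.Φ c.μ (c.T x1) c.P c.w (clo c.D (c.T x0) (c.T x1) (c.psi i v) (c.Gam v)) =
      2 ^ j * m ∧ (j = k + 1 → (m : F2) =
        ∑ W ∈ (univ : Finset (Finset (Option (Fin k)))).erase univ, (f W : F2) +
        hv c.μ c.D (c.e none) (fun _ => c.ix) c.φ (c.w (.inl (some c.b))) (v (some (c.e none)))
          (c.T x0) (c.T x1) (c.S.Φ.fr (c.T x0 c.b))) := by
  have h1 := c.CLP ι ℓ c.S.Φ c.μ c.P c.i1 c.D (c.e none) c.b _ _ c.w (c.psi i v) (c.Gam v) (c.T x0)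
    (c.T x1) c.ax.one (cb fun _ h => h) (gm (fun _ h => h) v).1 (vx hf) w_zero
  obtain ⟨r, hr⟩ := (gm (c := c) (Y := {x | c.Ok x}) (fun _ h => h) v).2 (c.T x0) (c.T x1)
    (c.w (.inl (some c.b))) (c.S.Φ.fr (c.T x0 c.b))
  rw [tup_pw, piecewise_univ, sum_faces, sub_eq_iff_eq_add.1 hr,
    sum_congr rfl fun W hW => by rw [tup_pw, h W (mem_erase.1 hW).1, mul_left_comm],
    ← mul_sum] at h1
  generalize hv c.μ c.D (c.e none) (fun _ => c.ix) c.φ (c.w (.inl (some c.b)))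
    (v (some (c.e none))) (c.T x0) (c.T x1) (c.S.Φ.fr (c.T x0 c.b)) = y at *
  obtain ⟨d, hd⟩ := Nat.exists_eq_add_of_le hj
  refine ⟨(-1) ^ c.D.card * (2 ^ d * (2 * r + y.val) -
    ∑ W ∈ (univ : Finset (Finset (Option (Fin k)))).erase univ, (-1) ^ (W.map c.e).card * f W),
    ?_, fun e => ?_⟩
  · have e : (2 : ℤ) * 2 ^ k = 2 ^ j * 2 ^ d := by rw [← pow_succ', hd, pow_add]
    rw [h1]
    linear_combination (-1) ^ c.D.card * (2 * r + y.val) * e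
  · obtain rfl : d = 0 := by omega
    have e1 : (-1 : F2) = 1 := rfl
    have e2 : (2 : F2) = 0 := rfl
    push_cast
    simp only [e1, e2, one_pow, one_mul, zero_mul, zero_add, ZMod.natCast_zmod_val,
      CharTwo.sub_eq_add]
    exact add_comm _ _

end Last

theorem pg_eq {x : Option (Fin k) → Fin M} (h : c.Ok x)
    (hw : c.w ∈ Ws c.S.Φ c.μ (c.T x) c.P c.i1 (k + 1)) {ψ : Ga → Fin ℓ → ℤ}
    (hc : CC c.S.Φ c.μ (c.T x) c.P (k + 1) ψ) {m : ℤ}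
    (e : Pw c.S.Φ c.μ (c.T x) c.P c.w ψ = 2 ^ (k + 1) * m) :
    pg c.S.Φ c.μ (c.T x) c.P (k + 1) c.w (red c.S.Φ (c.T x) ψ) = m := by
  have h1 := c.PR.val ι ℓ _ _ _ _ c.J (k + 1) c.i1 c.w ψ c.ax.one h.1 c.ok (by omega) c.hJ hw hc
  rw [e, pow_succ _ (k + 1), mul_dvd_mul_iff_left (by positivity)] at h1
  have h2 : (m : F2) = 0 ↔ (2 : ℤ) ∣ m := ZMod.intCast_zmod_eq_zero_iff_dvd m 2
  rw [← h2] at h1
  generalize pg c.S.Φ c.μ (c.T x) c.P (k + 1) c.w (red c.S.Φ (c.T x) ψ) = a at h1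
  generalize (m : F2) = a' at h1
  revert a a'
  decide

theorem hv_eq (x0 x1 : Option (Fin k) → Fin M) (w v : Vb ℓ) :
    hv c.μ c.D (c.e none) (fun _ => c.ix) c.φ w v (c.T x0) (c.T x1) (c.S.Φ.fr (c.T x0 c.b)) =
      Hg (fun a => w ⬝ᵥ (bar c.μ.g ^ a.val *ᵥ v)) (fun r => c.φ (c.ps r) (c.S.Φ.fr (c.xs c.b)))
        x0 x1 := by
  have e : ∀ x s, c.ix (c.T x (c.e (some s))) = (s, x (some s)) := fun x s => by
    rw [T, tup_e]
    exact c.hix _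
  have e' : ∀ x, c.T x (c.e none) = c.ps (x none) := fun x => tup_e _ _ _ _ x none
  rw [hv, Hg, erase_none, e', e', show c.T x0 c.b = c.xs c.b from tup_off _ _ _ _ _ _ b_off]
  simp only [prod_map, Embedding.trans_apply, Embedding.some_apply, e]

theorem cm : Cm c.ty c.rk c.C (fun x => pg c.S.Φ c.μ (c.T x) c.P (k + 1) c.w c.v)
    (Hg (fun a => c.w (.inl (some c.b)) ⬝ᵥ (bar c.μ.g ^ a.val *ᵥ c.v (some (c.e none))))
      fun r => c.φ (c.ps r) (c.S.Φ.fr (c.xs c.b))) (c.typ c.xa) := by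
  intro t x0 x1 hf
  have o1 := ok_last hf
  have hJ := c.hJ
  have hk := c.hk
  have sub : ∀ i, t.1 i ⊆ (c.typ x1).1 i := fun i v hv => ⟨_, close hf hv⟩
  have le : ∀ i ∈ univ, (t.1 i).ncard ≤ ((c.typ x1).1 i).ncard := fun i _ =>
    Set.ncard_le_ncard (sub i)
  refine ⟨_, ty_iff.2 ⟨o1, rfl⟩, sum_le_sum le, fun e1 e2 => ?_⟩
  have eq : ∀ i, t.1 i = (c.typ x1).1 i := fun i => Set.eq_of_subset_of_ncard_le (sub i)
    ((sum_eq_sum_iff_of_le le).1 e2.symm i (mem_univ i)).ge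
  have wv : ∀ W : Finset (Option (Fin k)), W ≠ univ →
      c.w ∈ Ws c.S.Φ c.μ (c.T (W.piecewise x1 x0)) c.P c.i1 (k + 1) := fun W hW =>
    (congrArg Prod.snd ((ty_iff.1 (hf W hW).1).2.trans e1)).mpr c.w0
  have ws : ∀ j, 2 ≤ j → j ≤ k + 1 → c.w ∈ Ws c.S.Φ c.μ (c.T x1) c.P c.i1 j := fun j hj => by
    induction j, hj using Nat.le_induction with
    | base => exact fun _ => ws_eq o1 ▸ w_two
    | succ j hj ih =>
      intro h
      refine ((c.PR.step ι ℓ _ _ _ _ c.J j c.i1 c.ax.one o1.1 c.ok (by omega) (by omega)).1 _).2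
        ⟨ih (by omega), fun v hv => ?_⟩
      have hi : j ∈ Icc 2 (k + 1) := mem_Icc.2 ⟨hj, by omega⟩
      have h1 : (⟨v, vs_sub o1 hi hv⟩ : c.U) ∈ t.1 ⟨j, hi⟩ := (eq ⟨j, hi⟩).ge hv
      obtain ⟨h2, h3⟩ := close hf h1
      choose! f hf' using fun W (hW : W ≠ univ) =>
        (ws_sub (ok_all hf W) (by omega) h (wv W hW)).2 _ (psi_spec (mem_vs hf h1 hW)).1
      obtain ⟨m, hm, -⟩ := key hf j v (j + 1) h f hf'
      have h4 := (c.PR.val ι ℓ _ _ _ _ c.J j c.i1 c.w _ c.ax.one o1.1 c.ok (by omega) (by omega)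
        (ih (by omega)) h2).2 ⟨m, hm⟩
      rwa [h3] at h4
  have wl := ws (k + 1) (by omega) le_rfl
  refine ⟨Prod.ext (funext fun i => (eq i).symm) (propext ⟨fun _ => ?_, fun _ => wl⟩), ?_⟩
  · rw [e1]
    exact c.w0
  have hi : k + 1 ∈ Icc 2 (k + 1) := mem_Icc.2 ⟨by omega, le_rfl⟩
  have h1 : (⟨c.v, vs_sub ⟨c.lb0, rfl⟩ hi c.v0⟩ : c.U) ∈ t.1 ⟨k + 1, hi⟩ := by
    rw [e1]
    exact c.v0
  obtain ⟨h2, h3⟩ := close hf h1
  choose! f hf' using fun W (hW : W ≠ univ) =>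
    c.PR.dvd ι ℓ _ _ _ _ c.J (k + 1) c.i1 c.w _ c.ax.one (ok_all hf W).1 c.ok hJ (wv W hW).1
      (psi_spec (mem_vs hf h1 hW)).1
  obtain ⟨m, hm, hm'⟩ := key hf (k + 1) c.v (k + 1) le_rfl f hf'
  have h4 := pg_eq o1 wl h2 hm
  rw [h3, hm' rfl, hv_eq] at h4
  refine h4.trans (congrArg (· + _) (sum_congr rfl fun W hW => ?_))
  have h5 := psi_spec (mem_vs hf h1 (mem_erase.1 hW).1)
  have h6 := pg_eq (ok_all hf W) (wv W (mem_erase.1 hW).1) h5.1 (hf' W (mem_erase.1 hW).1)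
  rw [h5.2] at h6
  exact h6.symm

theorem ty_xa (x : Option (Fin k) → Fin M) : c.ty x = some (c.typ c.xa) ↔ c.Ok x ∧
    (∀ i ∈ Icc 2 (k + 1), Vs c.S.Φ c.μ (c.T x) c.P i = Vs c.S.Φ c.μ (c.T c.xa) c.P i) ∧
    c.w ∈ Ws c.S.Φ c.μ (c.T x) c.P c.i1 (k + 1) := by
  rw [ty_iff]
  refine and_congr_right fun h => ⟨fun e => ⟨fun i hi => ?_, (congrArg Prod.snd e).mpr c.w0⟩,
    fun e => Prod.ext (funext fun i => ?_) (propext ⟨fun _ => c.w0, fun _ => e.2⟩)⟩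
  · have e1 := congrFun (congrArg Prod.fst e) ⟨i, hi⟩
    exact Set.ext fun v => ⟨fun hv => (Set.ext_iff.1 e1 ⟨v, vs_sub h hi hv⟩).1 hv,
      fun hv => (Set.ext_iff.1 e1 ⟨v, vs_sub ⟨c.lb0, rfl⟩ hi hv⟩).2 hv⟩
  · simp only [typ, e.1 i.1 i.2]

end Ctx

end GRS

open GRS in
theorem rowGRS : OfGRS := by
  intro PR TAB CLO CLP AMQ GAM LAB GRA ℓ k n κ η hk hη
  obtain ⟨M, hM, Bd, hB, h⟩ := GRA k n (B0 ℓ k κ ^ (k * (2 ^ κ * 2 ^ (k + 1))))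
    ((2 ^ 2 ^ κ) ^ k * 2) η hη
  refine ⟨M, hM, Bd, hB, fun ι _ _ S g s u a J P i1 b e xs ζ zs ps Q φ y0 t w v ax ok hJ gs hG
    hw => ?_⟩
  by_cases hx : ∃ x, Lb (tup e xs ζ ps x) P i1 ∧ tab S n (tup e xs ζ ps x) P = y0 ∧
      (Us S.Φ ⟨g, s, u, a, n⟩ (tup e xs ζ ps x) P i1 1).ncard ≤ 2 ^ κ ∧
      Zr S.Φ ⟨g, s, u, a, n⟩ (tup e xs ζ ps x) P i1 e ∧
      (∀ i ∈ Icc 2 (k + 1), Vs S.Φ ⟨g, s, u, a, n⟩ (tup e xs ζ ps x) P i = t i) ∧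
      v ∈ Vs S.Φ ⟨g, s, u, a, n⟩ (tup e xs ζ ps x) P (k + 1) ∧
      w ∈ Ws S.Φ ⟨g, s, u, a, n⟩ (tup e xs ζ ps x) P i1 (k + 1)
  swap
  · rw [sum_eq_zero fun x _ => by rw [ind, if_neg fun h' => hx ⟨x, h'⟩, zero_mul], abs_zero]
    positivity
  obtain ⟨xa, a1, rfl, a3, a4, a5, a6, a7⟩ := hx
  have : Nonempty (Fin k × Fin M) := ⟨⟨0, by omega⟩, ⟨0, hM⟩⟩
  let c : Ctx ι ℓ k M κ := ⟨S, ⟨g, s, u, a, n⟩, J, P, i1, b, e, xs, ζ, zs, ps, Q, φ, invFun ζ, xa,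
    w, v, leftInverse_invFun gs.inj, ax, ok, hk, hJ, gs, a1, a3, a4, a6, a7, PR, TAB, CLO, CLP, AMQ,
    GAM, LAB⟩
  have h1 := enc (Ctx.card_Ty (c := c)) c.ty c.rk c.C _ _ _ _
    (fun ty rk C t0 => h _ hG _ ty rk C _ t0 (by
      rw [ZMod.val_zero, pow_zero, one_mulVec]; exact hw)) Ctx.as Ctx.cm
  refine le_of_eq_of_le (congrArg _ (sum_congr rfl fun x _ => congrArg (· * _)
    (congrArg ind (propext ?_)))) h1
  rw [Ctx.ty_xa]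
  constructor
  · rintro ⟨b1, b2, -, -, b5, -, b7⟩
    exact ⟨⟨b1, b2⟩, fun i hi => (b5 i hi).trans (a5 i hi).symm, b7⟩
  · rintro ⟨b1, b2, b3⟩
    have u1 : Us S.Φ ⟨g, s, u, a, n⟩ (tup e xs ζ ps x) P i1 1 =
      Us S.Φ ⟨g, s, u, a, n⟩ (tup e xs ζ ps xa) P i1 1 := Ctx.us_eq b1
    have u2 : Ws S.Φ ⟨g, s, u, a, n⟩ (tup e xs ζ ps x) P i1 2 =
      Ws S.Φ ⟨g, s, u, a, n⟩ (tup e xs ζ ps xa) P i1 2 := Ctx.ws_eq b1
    refine ⟨b1.1, b1.2, u1 ▸ a3, ?_, fun i hi => (b2 i hi).trans (a5 i hi),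
      (b2 _ (mem_Icc.2 ⟨by omega, le_rfl⟩)).ge a6, b3⟩
    rw [Zr, u1, u2]
    exact a4

end Pool.Agent.MP_1246c0_nt.H25
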