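import Pool.Agent.MP_1246c0_nt.H25.SpecG

/-! Grids of primes: encoding of types, tuples, the context. -/

namespace Pool.Agent.MP_1246c0_nt.H25

open Finset Matrix Function Pool.Agent.MP_db5b97_nt.H85
open Pool.Agent.MP_1246c0_nt.H12

namespace GRS

section Enc

variable {D Z τ : Type} [DecidableEq D]

theorem as_mono {Y Y' : (D → Z) → Prop} {C : Finset D → (D → Z) → (D → Z) → Prop} {B : ℕ}
    (h : ∀ x, Y' x → Y x) (a : As Y C B) : As Y' C B :=
  ⟨a.loc, a.emp, fun W o x0 x1 ho => (a.lab W o x0 x1 ho).imp fun _ hl z z' h1 h2 =>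
    hl z z' (fun W' hW => ⟨h _ (h1 W' hW).1, (h1 W' hW).2⟩)
      fun W' hW => ⟨h _ (h2 W' hW).1, (h2 W' hW).2⟩⟩

variable [Fintype D]

/-- the last vertex of a cube, for types in any set -/
def Cm (ty : (D → Z) → Option τ) (rk : τ → ℕ) (C : τ → Finset D → (D → Z) → (D → Z) → Prop)
    (F : (D → Z) → F2) (H : (D → Z) → (D → Z) → F2) (t0 : τ) : Prop :=
  ∀ t x0 x1, (∀ W, W ≠ univ → ty (W.piecewise x1 x0) = some t ∧ C t W x0 x1) →
    ∃ t', ty x1 = some t' ∧ rk t ≤ rk t' ∧ (t = t0 → rk t' = rk t → t' = t ∧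
      F x1 = ∑ W ∈ (univ : Finset (Finset D)).erase univ, F (W.piecewise x1 x0) + H x0 x1)

theorem enc [Fintype Z] [Nonempty D] [Finite τ] {K B : ℕ} (hK : Nat.card τ ≤ K)
    (ty : (D → Z) → Option τ) (rk : τ → ℕ) (C : τ → Finset D → (D → Z) → (D → Z) → Prop)
    (F : (D → Z) → F2) (H : (D → Z) → (D → Z) → F2) (t0 : τ) (c : ℝ)
    (hG : ∀ (ty : (D → Z) → Option (Fin K)) (rk : Fin K → ℕ)
      (C : Fin K → Finset D → (D → Z) → (D → Z) → Prop) (t0 : Fin K),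
      (∀ t, As (fun x => ty x = some t) (C t) B) → Cl ty rk C F H t0 →
      |∑ x, ind (ty x = some t0) * sg (F x)| ≤ c)
    (hA : ∀ t, As (fun x => ty x = some t) (C t) B) (hC : Cm ty rk C F H t0) :
    |∑ x, ind (ty x = some t0) * sg (F x)| ≤ c := by
  have := Fintype.ofFinite τ
  have : Nonempty τ := ⟨t0⟩
  obtain ⟨f⟩ : Nonempty (τ ↪ Fin K) := Function.Embedding.nonempty_of_card_le
    (by rwa [Fintype.card_fin, ← Nat.card_eq_fintype_card])
  have hf : ∀ t, invFun f (f t) = t := leftInverse_invFun f.injective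
  have h1 : ∀ x t, (ty x).map f = some t → ty x = some (invFun f t) ∧ f (invFun f t) = t :=
    fun x t h => by
      obtain ⟨t1, h2, rfl⟩ := Option.map_eq_some_iff.1 h
      rw [hf]
      exact ⟨h2, rfl⟩
  have h2 := hG (fun x => (ty x).map f) (fun t => rk (invFun f t)) (fun t => C (invFun f t)) (f t0)
    (fun t => as_mono (fun x hx => (h1 x t hx).1) (hA _)) fun t x0 x1 h => by
      obtain ⟨t', a1, a2, a3⟩ := hC (invFun f t) x0 x1 fun W hW =>
        ⟨(h1 _ t (h W hW).1).1, (h W hW).2⟩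
      have ht := (h1 _ t (h ∅ univ_nonempty.ne_empty.symm).1).2
      refine ⟨f t', by simp only [a1, Option.map_some], by simpa only [hf] using a2,
        fun e1 e2 => ?_⟩
      obtain ⟨b1, b2⟩ := a3 (by rw [e1, hf]) (by simpa only [hf] using e2)
      exact ⟨by rw [b1, ht], b2⟩
  have h3 : ∀ x, ((ty x).map f = some (f t0)) = (ty x = some t0) := fun x =>
    propext ⟨fun h => by simpa only [hf] using (h1 x _ h).1, fun h => by rw [h]; rfl⟩
  simpa only [h3] using h2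

end Enc

variable {ι : Type} [Fintype ι] [DecidableEq ι] {ℓ k M κ : ℕ}

section Tup

variable (e : Option (Fin k) ↪ ι) (xs : ι → ℕ) (ζ : Fin k × Fin M → ℕ) (ps : Fin M → ℕ)

/-- the prime with a given index -/
def val (o : Option (Fin k)) (z : Fin M) : ℕ := o.elim (ps z) fun s => ζ (s, z)

omit [Fintype ι] [DecidableEq ι] in
theorem tup_e (x : Option (Fin k) → Fin M) (o : Option (Fin k)) :
    tup e xs ζ ps x (e o) = val ζ ps o (x o) := by
  rw [tup, e.injective.extend_apply]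
  cases o <;> rfl

omit [Fintype ι] [DecidableEq ι] in
theorem tup_off (x : Option (Fin k) → Fin M) (l : ι) (h : l ∉ univ.map e) :
    tup e xs ζ ps x l = xs l :=
  extend_apply' _ _ _ fun ⟨o, ho⟩ => h (mem_map.2 ⟨o, mem_univ _, ho⟩)

omit [Fintype ι] in
theorem tup_pw (W : Finset (Option (Fin k))) (x0 x1 : Option (Fin k) → Fin M) :
    (W.map e).piecewise (tup e xs ζ ps x1) (tup e xs ζ ps x0) =
      tup e xs ζ ps (W.piecewise x1 x0) := by
  funext l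
  by_cases h : l ∈ univ.map e
  · obtain ⟨o, -, rfl⟩ := mem_map.1 h
    by_cases ho : o ∈ W
    · rw [piecewise_eq_of_mem _ _ _ ((mem_map' e).2 ho), tup_e, tup_e, piecewise_eq_of_mem _ _ _ ho]
    · rw [piecewise_eq_of_notMem _ _ _ (mt (mem_map' e).1 ho), tup_e, tup_e,
        piecewise_eq_of_notMem _ _ _ ho]
  · rw [piecewise_eq_of_notMem _ _ _ fun h' => h (map_subset_map.2 (subset_univ W) h'),
      tup_off _ _ _ _ _ _ h, tup_off _ _ _ _ _ _ h]

omit [Fintype ι] in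
theorem tup_up (x : Option (Fin k) → Fin M) (o : Option (Fin k)) (z : Fin M) :
    update (tup e xs ζ ps x) (e o) (val ζ ps o z) = tup e xs ζ ps (update x o z) := by
  funext l
  by_cases h : l ∈ univ.map e
  · obtain ⟨o', -, rfl⟩ := mem_map.1 h
    rcases eq_or_ne o' o with rfl | ho
    · rw [update_self, tup_e, update_self]
    · rw [update_of_ne (e.injective.ne ho), tup_e, tup_e, update_of_ne ho]
  · rw [update_of_ne fun h' => h (mem_map.2 ⟨o, mem_univ _, h'.symm⟩), tup_off _ _ _ _ _ _ h,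
      tup_off _ _ _ _ _ _ h]

omit [Fintype ι] in
theorem pair (hk : 2 ≤ k) (x0 x1 : Option (Fin k) → Fin M) (l l' : ι) :
    ∃ W : Finset (Option (Fin k)), W ≠ univ ∧
      tup e xs ζ ps (W.piecewise x1 x0) l = tup e xs ζ ps x1 l ∧
      tup e xs ζ ps (W.piecewise x1 x0) l' = tup e xs ζ ps x1 l' := by
  have h : ∀ m ∈ ({l, l'} : Finset ι), tup e xs ζ ps
      ((univ.filter fun o => e o ∈ ({l, l'} : Finset ι)).piecewise x1 x0) m =
        tup e xs ζ ps x1 m := fun m hm => by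
    by_cases h : m ∈ univ.map e
    · obtain ⟨o, -, rfl⟩ := mem_map.1 h
      rw [tup_e, tup_e, piecewise_eq_of_mem _ _ _ (mem_filter.2 ⟨mem_univ o, hm⟩ :
        o ∈ univ.filter fun o => e o ∈ ({l, l'} : Finset ι))]
    · rw [tup_off _ _ _ _ _ _ h, tup_off _ _ _ _ _ _ h]
  refine ⟨_, fun hW => ?_, h l (by simp), h l' (by simp)⟩
  have h1 : (univ : Finset (Option (Fin k))).card ≤ ({l, l'} : Finset ι).card :=
    card_le_card_of_injOn e (fun o _ => (mem_filter.1 (hW.ge (mem_univ o))).2) e.injective.injOn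
  have h2 := card_le_two (a := l) (b := l')
  rw [card_univ, Fintype.card_option, Fintype.card_fin] at h1
  omega

omit [Fintype ι] in
theorem sum_faces {N : Type} [AddCommMonoid N] (f : Finset ι → N) :
    ∑ W ∈ (univ.map e).powerset.erase (univ.map e), f W =
      ∑ W ∈ (univ : Finset (Finset (Option (Fin k)))).erase univ, f (W.map e) := by
  rw [← sum_image (f := f) (g := fun W : Finset (Option (Fin k)) => W.map e)
    (map_injective e).injOn]
  congr 1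
  ext W
  simp only [mem_erase, mem_powerset, mem_image, mem_univ, and_true, subset_map_iff]
  constructor
  · rintro ⟨h, u, -, rfl⟩
    exact ⟨u, fun hu => h (by rw [hu]), rfl⟩
  · rintro ⟨u, h, rfl⟩
    exact ⟨fun hu => h (map_injective e hu), u, subset_univ _, rfl⟩

omit [Fintype ι] in
theorem erase_none : (univ.map e).erase (e none) = univ.map (Embedding.some.trans e) := by
  ext l
  simp only [mem_erase, mem_map, mem_univ, true_and, Embedding.trans_apply, Embedding.some_apply]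
  constructor
  · rintro ⟨h, o, rfl⟩
    cases o with
    | none => exact absurd rfl h
    | some s => exact ⟨s, rfl⟩
  · rintro ⟨s, rfl⟩
    exact ⟨e.injective.ne (Option.some_ne_none s), _, rfl⟩

end Tup

/-- all the data -/
structure Ctx (ι : Type) [Fintype ι] [DecidableEq ι] (ℓ k M κ : ℕ) where
  S : Sy
  μ : Md ℓ
  J : ℕ
  P : ℕ
  i1 : ι
  b : ι
  e : Option (Fin k) ↪ ι
  xs : ι → ℕ
  ζ : Fin k × Fin M → ℕ
  zs : Fin k → ℕ
  ps : Fin M → ℕ
  Q : Finset Ga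
  φ : ℕ → Ga → Xi μ.n (Fin k × Fin M) → F2
  ix : ℕ → Fin k × Fin M
  xa : Option (Fin k) → Fin M
  w : Option ι ⊕ Bool → Vb ℓ
  v : Option ι → Vb ℓ
  hix : ∀ q, ix (ζ q) = q
  ax : Ax S
  ok : μ.Ok J
  hk : 2 ≤ k
  hJ : k + 1 ≤ J
  gs : Gs S.Φ μ.n P e b xs ζ zs ps Q φ
  lb0 : Lb (tup e xs ζ ps xa) P i1
  us0 : (Us S.Φ μ (tup e xs ζ ps xa) P i1 1).ncard ≤ 2 ^ κ
  zr0 : Zr S.Φ μ (tup e xs ζ ps xa) P i1 e
  v0 : v ∈ Vs S.Φ μ (tup e xs ζ ps xa) P (k + 1)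
  w0 : w ∈ Ws S.Φ μ (tup e xs ζ ps xa) P i1 (k + 1)
  PR : SPR
  TAB : STAB
  CLO : SCLO
  CLP : SCLP
  AMQ : SAMQ
  GAM : SGAM
  LAB : SLAB

namespace Ctx

variable (c : Ctx ι ℓ k M κ)

/-- tuples -/
noncomputable abbrev T (x : Option (Fin k) → Fin M) : ι → ℕ := tup c.e c.xs c.ζ c.ps x

/-- the moving indices -/
abbrev D : Finset ι := univ.map c.e

/-- valid points -/
def Ok (x : Option (Fin k) → Fin M) : Prop :=
  Lb (c.T x) c.P c.i1 ∧ tab c.S c.μ.n (c.T x) c.P = tab c.S c.μ.n (c.T c.xa) c.P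

/-- the first kernel -/
def U : Set (Option ι → Vb ℓ) := Us c.S.Φ c.μ (c.T c.xa) c.P c.i1 1

/-- types -/
abbrev Ty : Type := (↥(Icc 2 (k + 1)) → Set c.U) × Prop

/-- the type of a point -/
def typ (x : Option (Fin k) → Fin M) : c.Ty :=
  (fun i => {v | v.1 ∈ Vs c.S.Φ c.μ (c.T x) c.P i.1}, c.w ∈ Ws c.S.Φ c.μ (c.T x) c.P c.i1 (k + 1))

open Classical in
/-- the type of a valid point -/
noncomputable def ty (x : Option (Fin k) → Fin M) : Option c.Ty :=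
  if c.Ok x then some (c.typ x) else none

/-- the rank of a type -/
noncomputable def rk (t : c.Ty) : ℕ := ∑ i, (t.1 i).ncard

/-- chosen cocycles -/
noncomputable def psi (i : ℕ) (v : Option ι → Vb ℓ) (pr : ι → ℕ) : Ga → Fin ℓ → ℤ :=
  Classical.epsilon fun ψ => CC c.S.Φ c.μ pr c.P i ψ ∧ red c.S.Φ pr ψ = v

/-- the corrections -/
noncomputable def Gam (v : Option ι → Vb ℓ) : (ι → ℕ) → Ga → Fin ℓ → ℤ :=
  gam c.μ c.D (c.e none) (fun _ => c.ix) c.φ (v (some (c.e none)))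

/-- the conditions on faces -/
def C (t : c.Ty) (W : Finset (Option (Fin k))) (x0 x1 : Option (Fin k) → Fin M) : Prop :=
  ∀ i, ∀ v ∈ t.1 i, Cd c.S.Φ c.D i.1 (c.psi i.1 v.1) (c.Gam v.1) (W.map c.e) (c.T x0) (c.T x1)

variable {c}

theorem ty_iff {x : Option (Fin k) → Fin M} {t : c.Ty} :
    c.ty x = some t ↔ c.Ok x ∧ c.typ x = t := by
  rw [ty]
  split_ifs with h <;> simp [h]

theorem psi_spec {i : ℕ} {v : Option ι → Vb ℓ} {pr : ι → ℕ} (h : v ∈ Vs c.S.Φ c.μ pr c.P i) :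
    CC c.S.Φ c.μ pr c.P i (c.psi i v pr) ∧ red c.S.Φ pr (c.psi i v pr) = v :=
  Classical.epsilon_spec h

theorem D_card : c.D.card = k + 1 := by
  rw [card_map, card_univ, Fintype.card_option, Fintype.card_fin]

theorem us_eq {x : Option (Fin k) → Fin M} (h : c.Ok x) :
    Us c.S.Φ c.μ (c.T x) c.P c.i1 1 = c.U :=
  (c.TAB ι ℓ c.S c.μ _ _ c.P c.J c.i1 c.ax h.1 c.lb0 c.ok h.2).2.2.1

theorem ws_eq {x : Option (Fin k) → Fin M} (h : c.Ok x) :
    Ws c.S.Φ c.μ (c.T x) c.P c.i1 2 = Ws c.S.Φ c.μ (c.T c.xa) c.P c.i1 2 :=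
  (c.TAB ι ℓ c.S c.μ _ _ c.P c.J c.i1 c.ax h.1 c.lb0 c.ok h.2).2.2.2

theorem vs_sub {x : Option (Fin k) → Fin M} (h : c.Ok x) {i : ℕ} (hi : i ∈ Icc 2 (k + 1)) :
    Vs c.S.Φ c.μ (c.T x) c.P i ⊆ c.U := by
  have := c.hJ
  rw [mem_Icc] at hi
  rw [← us_eq h]
  exact (c.PR.mono ι ℓ _ _ _ _ c.J i i c.i1 c.ax.one h.1 c.ok (by omega) le_rfl (by omega)).2.2 hi.1

theorem ws_sub {x : Option (Fin k) → Fin M} (h : c.Ok x) {i : ℕ} (h1 : 1 ≤ i) (h2 : i ≤ k + 1) :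
    Ws c.S.Φ c.μ (c.T x) c.P c.i1 (k + 1) ⊆ Ws c.S.Φ c.μ (c.T x) c.P c.i1 i :=
  (c.PR.mono ι ℓ _ _ _ _ c.J i _ c.i1 c.ax.one h.1 c.ok h1 h2 c.hJ).2.1

theorem w_two : c.w ∈ Ws c.S.Φ c.μ (c.T c.xa) c.P c.i1 2 :=
  ws_sub ⟨c.lb0, rfl⟩ one_le_two (by have := c.hk; omega) c.w0

theorem w_zero : ∀ o ∈ c.D, c.w (.inl (some o)) = 0 := fun o ho => by
  obtain ⟨o, -, rfl⟩ := mem_map.1 ho
  exact c.zr0.2 _ w_two o

theorem v_zero (v : c.U) : ∀ s ∈ c.D, s ≠ c.e none → v.1 (some s) = 0 := fun s hs h => by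
  obtain ⟨o, -, rfl⟩ := mem_map.1 hs
  cases o with
  | none => exact absurd rfl h
  | some s => exact c.zr0.1 _ v.2 s

theorem b_off : c.b ∉ c.D := fun h => by
  obtain ⟨o, -, ho⟩ := mem_map.1 h
  exact c.gs.be o ho

theorem cb {Y : Set (Option (Fin k) → Fin M)} (hY : ∀ x ∈ Y, c.Ok x) :
    Cb c.S.Φ c.P c.i1 c.D (c.e none) c.b (c.T '' Y) := by
  have off : ∀ x x' l, l ∉ c.D → c.T x l = c.T x' l := fun x x' l hl =>
    (tup_off _ _ _ _ _ _ hl).trans (tup_off _ _ _ _ _ _ hl).symm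
  have tb := fun x (hx : x ∈ Y) x' (hx' : x' ∈ Y) => c.TAB ι ℓ c.S c.μ _ _ c.P c.J c.i1 c.ax
    (hY x hx).1 (hY x' hx').1 c.ok ((hY x hx).2.trans (hY x' hx').2.symm)
  refine ⟨?_, ?_, ?_, ?_, ?_, mem_map_of_mem _ (mem_univ _), b_off⟩
  · rintro _ ⟨x, hx, rfl⟩
    exact (hY x hx).1
  · rintro _ ⟨x, -, rfl⟩ _ ⟨x', -, rfl⟩
    exact off x x'
  · rintro _ ⟨x, hx, rfl⟩ _ ⟨x', hx', rfl⟩
    exact (tb x hx x' hx').1
  · rintro _ ⟨x, hx, rfl⟩ _ ⟨x', hx', rfl⟩ l hl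
    rw [(tb x hx x' hx').2.1 l, off x x' l hl]
  · rintro _ ⟨x, hx, rfl⟩ _ ⟨x', hx', rfl⟩ l l' hl
    by_cases h : l ∈ c.D
    · by_cases h' : l' ∈ c.D
      · obtain ⟨o, -, rfl⟩ := mem_map.1 h
        obtain ⟨o', -, rfl⟩ := mem_map.1 h'
        rw [T, T, tup_e, tup_e]
        rcases o with _ | s <;> rcases o' with _ | s'
        · exact absurd rfl hl
        · exact c.gs.ne _ _
        · exact (c.gs.ne _ _).symm
        · exact c.gs.inj.ne fun h => hl (by rw [show s = s' from (Prod.ext_iff.1 h).1])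
      · rw [← off x x' l' h']
        exact (hY x hx).1.inj.ne hl
    · rw [off x x' l h]
      exact (hY x' hx').1.inj.ne hl

theorem gm {Y : Set (Option (Fin k) → Fin M)} (hY : ∀ x ∈ Y, c.Ok x) (v : Option ι → Vb ℓ) :
    Gm c.S.Φ c.μ c.P c.D (c.e none) c.b (c.T '' Y) (lf (v (some (c.e none)))) (c.Gam v) ∧
    ∀ x0 x1 w h, (2 : ℤ) ^ (k + 1) ∣ lf w ⬝ᵥ cW c.D x0 x1 (fun x => c.Gam v x h) - 2 ^ k *
      ((hv c.μ c.D (c.e none) (fun _ => c.ix) c.φ w (v (some (c.e none))) x0 x1 h).val : ℤ) := by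
  have h := c.GAM ι _ ℓ c.S.Φ c.μ c.P c.J c.i1 c.D (c.e none) c.b (c.T '' Y) _ c.Q c.φ _
    (fun _ => c.ix) (extend c.e (fun o => o.elim 1 c.zs) 1) (v (some (c.e none))) c.ax.one c.ok
    (D_card.trans_le c.hJ) (cb hY) c.gs.gv ?_ c.gs.q1 ?_
  · rwa [card_erase_of_mem (cb hY).ad, D_card, Nat.add_sub_cancel] at h
  · rintro _ ⟨x, -, rfl⟩
    refine ⟨⟨x none, (tup_e c.e c.xs c.ζ c.ps x none).symm⟩, fun s hs => ?_⟩
    rw [erase_none] at hs
    obtain ⟨s, -, rfl⟩ := mem_map.1 hs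
    rw [Embedding.trans_apply, c.e.injective.extend_apply, T, tup_e]
    exact ⟨c.gs.zs0 s, by rw [show val c.ζ c.ps _ _ = c.ζ (s, x (some s)) from rfl, c.hix]; rfl⟩
  · rintro _ ⟨x, -, rfl⟩ l hl hb
    rw [T, tup_off _ _ _ _ _ _ hl]
    exact c.gs.q2 l (fun o ho => hl (mem_map.2 ⟨o, mem_univ _, ho⟩)) hb

end Ctx

end GRS

end Pool.Agent.MP_1246c0_nt.H25
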