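import Pool.Agent.MP_1246c0_nt.H25.SpecC
import Pool.Agent.MP_1246c0_nt.H54.XLDO

/-! Counting the conjugates of a module with a generating cocycle. -/

namespace Pool.Agent.MP_1246c0_nt.H25

open Finset Matrix Pool.Agent.MP_db5b97_nt.H85
open Pool.Agent.MP_1246c0_nt.H12

namespace ORB

/-! ### Relations in a ring -/

/-- the relations of admissible operators in a ring -/
structure AdR {R : Type} [Ring R] (g s u : R) (a : ℕ) : Prop where
  ts : g * s = s * g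
  tu : g * u = u * g
  su : s * u = u * s
  hs : g ^ 2 ^ a - 1 = 2 • s
  hu : a ≠ 0 → u * (g ^ 2 ^ (a - 1) - 1) = 2 • 1
  h0 : a = 0 → 2 • u = 0
  nil : ∃ k : ℕ, 2 • u ^ k = 0

section Ring

variable {R : Type} [Ring R] {g s u g' s' u' : R} {a : ℕ}

theorem AdR.map {R' : Type} [Ring R'] (f : R →+* R') (h : AdR g s u a) :
    AdR (f g) (f s) (f u) a where
  ts := by simpa only [map_mul] using congrArg f h.ts
  tu := by simpa only [map_mul] using congrArg f h.tu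
  su := by simpa only [map_mul] using congrArg f h.su
  hs := by simpa only [map_sub, map_pow, map_one, map_nsmul] using congrArg f h.hs
  hu := fun ha => by
    simpa only [map_mul, map_sub, map_pow, map_one, map_nsmul] using congrArg f (h.hu ha)
  h0 := fun ha => by simpa only [map_nsmul, map_zero] using congrArg f (h.h0 ha)
  nil := h.nil.imp fun k hk => by simpa only [map_nsmul, map_zero, map_pow] using congrArg f hk

/-- conjugation -/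
def cj (A A' : R) (h1 : A * A' = 1) (h2 : A' * A = 1) : R →+* R where
  toFun x := A * x * A'
  map_one' := by rw [mul_one, h1]
  map_mul' x y := by
    calc A * (x * y) * A' = A * x * (A' * A) * y * A' := by rw [h2, mul_one, mul_assoc A x y]
      _ = A * x * A' * (A * y * A') := by simp only [mul_assoc]
  map_zero' := by rw [mul_zero, zero_mul]
  map_add' x y := by rw [mul_add, add_mul]

theorem inter (h : AdR g s u a) (h' : AdR g' s' u' a) (F : R) (hF : F * g = g' * F) :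
    2 • (F * s - s' * F) = 0 ∧ 2 • (F * u - u' * F) = 0 := by
  have hp : ∀ k : ℕ, F * (g ^ k - 1) = (g' ^ k - 1) * F := fun k => by
    rw [mul_sub, sub_mul, mul_one, one_mul, (SemiconjBy.pow_right hF k).eq]
  constructor
  · rw [smul_sub, ← mul_smul_comm, ← smul_mul_assoc, ← h.hs, ← h'.hs, hp, sub_self]
  · rcases eq_or_ne a 0 with ha | ha
    · rw [smul_sub, ← mul_smul_comm, ← smul_mul_assoc, h.h0 ha, h'.h0 ha, mul_zero, zero_mul,
        sub_self]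
    · have c : (g ^ 2 ^ (a - 1) - 1) * u = 2 • 1 := by
        rw [← h.hu ha]
        exact (((Commute.pow_left h.tu _).sub_left (Commute.one_left u))).eq
      have e1 : 2 • (F * u) = u' * (g' ^ 2 ^ (a - 1) - 1) * (F * u) := by
        rw [h'.hu ha, smul_mul_assoc, one_mul]
      have e2 : 2 • (u' * F) = u' * F * ((g ^ 2 ^ (a - 1) - 1) * u) := by
        rw [c, mul_smul_comm, mul_one]
      rw [smul_sub, e1, e2, sub_eq_zero, mul_assoc, mul_assoc, ← mul_assoc _ F u, ← hp,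
        mul_assoc]

end Ring

/-! ### Reduction of matrices -/

variable {ℓ : ℕ}

/-- integral matrices -/
abbrev Mz (ℓ : ℕ) : Type := Matrix (Fin ℓ) (Fin ℓ) ℤ

/-- reduction modulo `2 ^ j` -/
def q (j : ℕ) : Mz ℓ →+* Matrix (Fin ℓ) (Fin ℓ) (ZMod (2 ^ j)) :=
  (Int.castRingHom (ZMod (2 ^ j))).mapMatrix

theorem q_zero (j : ℕ) (X : Mz ℓ) : q j X = 0 ↔ ∀ a b, (2 : ℤ) ^ j ∣ X a b := by
  rw [← Matrix.ext_iff]
  refine forall₂_congr fun a b => ?_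
  have := ZMod.intCast_zmod_eq_zero_iff_dvd (X a b) (2 ^ j)
  rw [Nat.cast_pow, Nat.cast_ofNat] at this
  exact this

theorem q_eq (j : ℕ) (X Y : Mz ℓ) : q j X = q j Y ↔ ∀ a b, (2 : ℤ) ^ j ∣ X a b - Y a b := by
  rw [← sub_eq_zero, ← map_sub, q_zero]
  rfl

theorem q_down {i j : ℕ} (h : i ≤ j) {X Y : Mz ℓ} (e : q j X = q j Y) : q i X = q i Y :=
  (q_eq i X Y).2 fun a b => (pow_dvd_pow 2 h).trans ((q_eq j X Y).1 e a b)

theorem mu_iff (j : ℕ) (x : Fin ℓ → ℤ) : x ∈ Mu (Fin ℓ → ℤ) j ↔ ∀ a, (2 : ℤ) ^ j ∣ x a := by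
  rw [mem_Mu]
  constructor
  · rintro ⟨y, rfl⟩ a
    exact ⟨y a, by simp⟩
  · intro h
    choose y hy using h
    exact ⟨y, funext fun a => by simp [hy a]⟩

theorem mu_mul (j : ℕ) (X : Mz ℓ) (x : Fin ℓ → ℤ) (hx : x ∈ Mu (Fin ℓ → ℤ) j) :
    X *ᵥ x ∈ Mu (Fin ℓ → ℤ) j := by
  obtain ⟨y, rfl⟩ := mem_Mu.1 hx
  exact mem_Mu.2 ⟨X *ᵥ y, by rw [Matrix.mulVec_smul]⟩

theorem q_mu (j : ℕ) (X : Mz ℓ) : q j X = 0 ↔ ∀ x, X *ᵥ x ∈ Mu (Fin ℓ → ℤ) j := by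
  rw [q_zero]
  constructor
  · intro h x
    exact (mu_iff j _).2 fun a => dvd_sum (s := univ) fun b _ => (h a b).mul_right (x b)
  · intro h a b
    simpa using (mu_iff j _).1 (h (Pi.single b 1)) a

theorem q_two (X : Mz ℓ) : 2 • q 2 X = 0 ↔ q 1 X = 0 := by
  rw [← map_nsmul, q_zero, q_zero]
  refine forall₂_congr fun a b => ?_
  simp only [Matrix.smul_apply, nsmul_eq_mul]
  omega

theorem bar_zero (X : Mz ℓ) : bar X = 0 ↔ q 1 X = 0 := by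
  rw [q_zero, ← Matrix.ext_iff]
  refine forall₂_congr fun a b => ?_
  exact ZMod.intCast_zmod_eq_zero_iff_dvd (X a b) 2

theorem bar_mul (X Y : Mz ℓ) : bar (X * Y) = bar X * bar Y :=
  map_mul (Int.castRingHom F2).mapMatrix X Y

theorem bar_sub (X Y : Mz ℓ) : bar (X - Y) = bar X - bar Y :=
  map_sub (Int.castRingHom F2).mapMatrix X Y

theorem bar_vec (X : Mz ℓ) (x : Fin ℓ → ℤ) :
    (fun i => ((X *ᵥ x) i : F2)) = bar X *ᵥ fun i => (x i : F2) :=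
  funext fun i => RingHom.map_mulVec (Int.castRingHom F2) X x i

theorem e1 (X Y : Mz ℓ) : (∀ x, toLin' X (toLin' Y x) - toLin' Y (toLin' X x) ∈ Mu _ 2) ↔
    q 2 X * q 2 Y = q 2 Y * q 2 X := by
  rw [← sub_eq_zero, ← map_mul, ← map_mul, ← map_sub, q_mu]
  simp only [toLin'_apply, sub_mulVec, mulVec_mulVec]

theorem e2 (X Y : Mz ℓ) (k : ℕ) : (∀ x, (toLin' X ^ k) x - x - 2 • toLin' Y x ∈ Mu _ 2) ↔
    q 2 X ^ k - 1 = 2 • q 2 Y := by
  rw [← sub_eq_zero, ← map_pow (q 2), ← map_one (q 2), ← map_nsmul, ← map_sub, ← map_sub, q_mu]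
  simp only [← toLin'_pow, toLin'_apply, sub_mulVec, one_mulVec, smul_mulVec]

theorem e3 (X Y : Mz ℓ) (k : ℕ) : (∀ x, toLin' Y ((toLin' X ^ k) x - x) - 2 • x ∈ Mu _ 2) ↔
    q 2 Y * (q 2 X ^ k - 1) = 2 • 1 := by
  rw [← sub_eq_zero, ← map_pow (q 2), ← map_one (q 2), ← map_nsmul, ← map_sub (q 2), ← map_mul,
    ← map_sub, q_mu]
  simp only [← toLin'_pow, toLin'_apply, sub_mulVec, one_mulVec, smul_mulVec, ← mulVec_mulVec]

theorem e4 (X : Mz ℓ) (k : ℕ) : (∀ x, (toLin' X ^ k) x ∈ Mu _ 1) ↔ 2 • q 2 X ^ k = 0 := by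
  rw [← map_pow (q 2), q_two, q_mu]
  simp only [← toLin'_pow, toLin'_apply]

theorem adm_iff (g s u : Mz ℓ) (a : ℕ) :
    Adm (toLin' g) (toLin' s) (toLin' u) a ↔ AdR (q 2 g) (q 2 s) (q 2 u) a := by
  have e5 : (∀ x, toLin' u x ∈ Mu _ 1) ↔ 2 • q 2 u = 0 := by simpa only [pow_one] using e4 u 1
  constructor
  · intro h
    exact ⟨(e1 _ _).1 h.ts, (e1 _ _).1 h.tu, (e1 _ _).1 h.su, (e2 _ _ _).1 h.hs,
      fun ha => (e3 _ _ _).1 (h.hu ha), fun ha => e5.1 (h.h0 ha),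
      h.nil.imp fun k hk => (e4 _ k).1 hk⟩
  · intro h
    exact ⟨fun x hx => (smul_eq_zero.1 hx).resolve_left two_ne_zero, (e1 _ _).2 h.ts,
      (e1 _ _).2 h.tu, (e1 _ _).2 h.su, (e2 _ _ _).2 h.hs,
      fun ha => (e3 _ _ _).2 (h.hu ha), fun ha => e5.2 (h.h0 ha),
      h.nil.imp fun k hk => (e4 _ k).2 hk⟩

theorem inter_bar {J : ℕ} {μ μ' : Md ℓ} (h : μ.Ok J) (h' : μ'.Ok J) (ha : μ'.a = μ.a) (F : Mz ℓ)
    (hF : q 2 (F * μ.g) = q 2 (μ'.g * F)) : bar F * bar μ.g = bar μ'.g * bar F ∧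
    bar F * bar μ.s = bar μ'.s * bar F ∧ bar F * bar μ.u = bar μ'.u * bar F := by
  have k : ∀ X Y : Mz ℓ, q 1 (F * X - Y * F) = 0 → bar F * bar X = bar Y * bar F :=
    fun X Y e => by rwa [← bar_zero, bar_sub, bar_mul, bar_mul, sub_eq_zero] at e
  have a' := (adm_iff _ _ _ _).1 h'.adm
  rw [ha] at a'
  obtain ⟨i1, i2⟩ := inter ((adm_iff _ _ _ _).1 h.adm) a' (q 2 F) (by simpa only [map_mul] using hF)
  refine ⟨k _ _ ?_, k _ _ ?_, k _ _ ?_⟩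
  · rw [map_sub, q_down one_le_two hF, sub_self]
  · rwa [← q_two, map_sub, map_mul, map_mul]
  · rwa [← q_two, map_sub, map_mul, map_mul]

theorem pull {κ : Type} {g s u g' s' u' F : Mb ℓ} {v : κ → Vb ℓ} (hG : G3 g s u v)
    (h : F * g = g' * F ∧ F * s = s' * F ∧ F * u = u' * F) (W : AddSubgroup (Vb ℓ))
    (hW : ∀ y ∈ W, g' *ᵥ y ∈ W ∧ s' *ᵥ y ∈ W ∧ u' *ᵥ y ∈ W) (hv : ∀ o, F *ᵥ v o ∈ W) (y : Vb ℓ) :
    F *ᵥ y ∈ W := by
  have := hG (W.comap (mulVecLin F).toAddMonoidHom) (fun y hy => ?_) hv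
  · exact this.ge (AddSubgroup.mem_top y)
  · obtain ⟨a, b, c⟩ := hW _ hy
    refine ⟨?_, ?_, ?_⟩
    · change F *ᵥ (g *ᵥ y) ∈ W
      rwa [mulVec_mulVec, h.1, ← mulVec_mulVec]
    · change F *ᵥ (s *ᵥ y) ∈ W
      rwa [mulVec_mulVec, h.2.1, ← mulVec_mulVec]
    · change F *ᵥ (u *ᵥ y) ∈ W
      rwa [mulVec_mulVec, h.2.2, ← mulVec_mulVec]

theorem ex_fin (j : ℕ) (X : Mz ℓ) : ∃ r : Fin ℓ → Fin ℓ → Fin (2 ^ j),
    q j (Matrix.of fun a b => ((r a b : ℕ) : ℤ)) = q j X := by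
  refine ⟨fun a b => ⟨(X a b : ZMod (2 ^ j)).val, ZMod.val_lt _⟩, Matrix.ext fun a b => ?_⟩
  simp [q]

theorem ex_inv (J : ℕ) (A : Mz ℓ) (hA : IsUnit (bar A)) :
    ∃ A' : Mz ℓ, q J A * q J A' = 1 ∧ q J A' * q J A = 1 := by
  have h1 : IsUnit ((A.det : ℤ) : ZMod 2) := by
    have := (Matrix.isUnit_iff_isUnit_det _).1 hA
    rwa [show (bar A).det = ((A.det : ℤ) : F2) from
      ((Int.castRingHom F2).map_det A).symm] at this
  have h2 : IsUnit ((A.det : ℤ) : ZMod (2 ^ J)) := by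
    rw [ZMod.coe_int_isUnit_iff_isCoprime] at h1 ⊢
    rw [Nat.cast_pow]
    exact h1.pow_left
  have h3 : IsUnit (q J A) := by
    rw [Matrix.isUnit_iff_isUnit_det]
    rwa [show (q J A).det = ((A.det : ℤ) : ZMod (2 ^ J)) from
      ((Int.castRingHom (ZMod (2 ^ J))).map_det A).symm]
  obtain ⟨U, hU⟩ := h3
  choose B hB using fun a b => ZMod.intCast_surjective ((U⁻¹ : (Matrix _ _ _)ˣ).1 a b)
  have h4 : q J (Matrix.of B) = (U⁻¹ : (Matrix _ _ _)ˣ).1 := Matrix.ext hB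
  exact ⟨Matrix.of B, by rw [h4, ← hU, U.mul_inv], by rw [h4, ← hU, U.inv_mul]⟩

theorem conj {J : ℕ} {μ : Md ℓ} (h : μ.Ok J) (A : Mz ℓ) (hA : IsUnit (bar A)) :
    ∃ r : Rd ℓ J, (mdo r μ.a μ.n).Ok J ∧ q J (A * μ.g) = q J ((mdo r μ.a μ.n).g * A) := by
  obtain ⟨A', h1, h2⟩ := ex_inv J A hA
  obtain ⟨r1, e1⟩ := ex_fin J (A * μ.g * A')
  obtain ⟨r2, e2⟩ := ex_fin 2 (A * μ.s * A')
  obtain ⟨r3, e3⟩ := ex_fin 2 (A * μ.u * A')
  have d : ∀ X Y : Mz ℓ, q J X * q J Y = 1 → q 2 X * q 2 Y = 1 := fun X Y e => by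
    rw [← map_mul, ← map_one (q 2)]
    exact q_down h.two (by rw [map_mul, map_one, e])
  refine ⟨(r1, r2, r3), ⟨(adm_iff _ _ _ _).2 ?_, h.le, h.two⟩, ?_⟩
  · have := ((adm_iff _ _ _ _).1 h.adm).map (cj _ _ (d _ _ h1) (d _ _ h2))
    have f1 : q 2 (mdo (r1, r2, r3) μ.a μ.n).g = q 2 A * q 2 μ.g * q 2 A' := by
      rw [← map_mul, ← map_mul]
      exact q_down h.two e1
    have f2 : q 2 (mdo (r1, r2, r3) μ.a μ.n).s = q 2 A * q 2 μ.s * q 2 A' := by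
      rw [← map_mul, ← map_mul]
      exact e2
    have f3 : q 2 (mdo (r1, r2, r3) μ.a μ.n).u = q 2 A * q 2 μ.u * q 2 A' := by
      rw [← map_mul, ← map_mul]
      exact e3
    rw [f1, f2, f3]
    exact this
  · have f1 : q J (mdo (r1, r2, r3) μ.a μ.n).g = q J (A * μ.g * A') := e1
    rw [map_mul (q J) _ A, f1, map_mul (q J) _ A', mul_assoc, h2, mul_one]

theorem cancel {i j k : ℕ} (h : i + k ≤ j) {x : ℤ} (e : (2 : ℤ) ^ j ∣ 2 ^ i * x) :
    (2 : ℤ) ^ k ∣ x := by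
  have := (pow_dvd_pow 2 h).trans e
  rwa [pow_add, mul_dvd_mul_iff_left (by positivity)] at this

theorem uniq {κ : Type} {J : ℕ} {μ μ' : Md ℓ} (h : μ.Ok J) (h' : μ'.Ok J) (ha : μ'.a = μ.a)
    (x : κ → Fin ℓ → ℤ) (hG : G3 (bar μ.g) (bar μ.s) (bar μ.u) fun o i => (x o i : F2))
    (A B : Mz ℓ) (hA : q J (A * μ.g) = q J (μ'.g * A)) (hB : q J (B * μ.g) = q J (μ'.g * B))
    (hx : ∀ o, A *ᵥ x o - B *ᵥ x o ∈ Mu (Fin ℓ → ℤ) (J - 1)) (i : ℕ) (hi : i ≤ J - 1) :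
    ∃ F : Mz ℓ, A - B = (2 : ℤ) ^ i • F := by
  induction i with
  | zero => exact ⟨A - B, by rw [pow_zero, one_smul]⟩
  | succ i ih =>
    obtain ⟨F, hF⟩ := ih (by omega)
    have h1 : q 2 (F * μ.g) = q 2 (μ'.g * F) := by
      have : q J ((2 : ℤ) ^ i • (F * μ.g - μ'.g * F)) = 0 := by
        rw [smul_sub, ← smul_mul_assoc, ← mul_smul_comm, ← hF, sub_mul, mul_sub, map_sub, map_sub,
          map_sub, hA, hB, sub_self]
      exact (q_eq 2 _ _).2 fun a b => cancel (by omega) ((q_zero J _).1 this a b)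
    have h2 : ∀ o, bar F *ᵥ (fun i => (x o i : F2)) ∈ (⊥ : AddSubgroup (Vb ℓ)) := fun o => by
      have := hx o
      rw [← sub_mulVec, hF, smul_mulVec, mu_iff] at this
      rw [← bar_vec, AddSubgroup.mem_bot]
      funext a
      exact (ZMod.intCast_zmod_eq_zero_iff_dvd _ 2).2 (cancel (k := 1) (by omega) (this a))
    have h3 := pull hG (inter_bar h h' ha F h1) ⊥ (fun y hy => by
      rw [AddSubgroup.mem_bot.1 hy]; simp) h2
    have h4 : bar F = 0 := Matrix.ext fun a b => by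
      simpa using congrFun (AddSubgroup.mem_bot.1 (h3 (Pi.single b 1))) a
    choose F' hF' using (q_zero 1 F).1 ((bar_zero F).1 h4)
    refine ⟨Matrix.of F', hF.trans (Matrix.ext fun a b => ?_)⟩
    simp only [Matrix.smul_apply, Matrix.of_apply, smul_eq_mul, hF' a b]
    ring

/-! ### Counting -/

section Count

variable {ι : Type} [Fintype ι] [DecidableEq ι] {Φ : Frm} {μ : Md ℓ} {pr : ι → ℕ} {P J : ℕ}
  {i1 : ι}

variable (Φ μ pr P) in
/-- at most `N` classes of cocycles with reduction in `V` -/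
def Bd (j : ℕ) (V : Set (Option ι → Vb ℓ)) (N : ℕ) : Prop :=
  ∀ (α : Type) (F : Finset α) (Ψ : α → Ga → Fin ℓ → ℤ), (∀ a ∈ F, CC Φ μ pr P j (Ψ a)) →
    (∀ a ∈ F, red Φ pr (Ψ a) ∈ V) →
    (∀ a ∈ F, ∀ b ∈ F, (∀ h, Ψ a h - Ψ b h ∈ Mu (Fin ℓ → ℤ) (j - 1)) → a = b) → F.card ≤ N

theorem step (PR : SPR) (ax : Ax1 Φ) (lb : Lb pr P i1) (ok : μ.Ok J) {j N : ℕ} (hj : 1 ≤ j)
    (hJ : j + 1 ≤ J) (ih : Bd Φ μ pr P j (Vs Φ μ pr P j) N) (V : Set (Option ι → Vb ℓ)) :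
    Bd Φ μ pr P (j + 1) V (V.ncard * N) := by
  classical
  intro α F Ψ hc hV hi
  rw [mul_comm, Set.ncard_eq_toFinset_card V]
  refine card_le_mul_card_image_of_maps_to (f := fun a => red Φ pr (Ψ a))
    (fun a ha => (Set.Finite.mem_toFinset _).2 (hV a ha)) N fun v _ => ?_
  rcases (F.filter fun a => red Φ pr (Ψ a) = v).eq_empty_or_nonempty with he | ⟨a0, h0⟩
  · rw [he]
    exact Nat.zero_le _
  have k : ∀ a, ∃ ρ : Ga → Fin ℓ → ℤ, a ∈ F.filter (fun a => red Φ pr (Ψ a) = v) →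
      CC Φ μ pr P j ρ ∧ ∀ h, Ψ a h - Ψ a0 h = 2 • ρ h := fun a => by
    by_cases ha : a ∈ F.filter fun a => red Φ pr (Ψ a) = v
    · obtain ⟨ρ, hρ⟩ := PR.det ι ℓ Φ μ pr P J (j + 1) i1 (Ψ a) (Ψ a0) ax lb ok (by omega) hJ
        (hc a (mem_filter.1 ha).1) (hc a0 (mem_filter.1 h0).1)
        ((mem_filter.1 ha).2.trans (mem_filter.1 h0).2.symm)
      exact ⟨ρ, fun _ => hρ⟩
    · exact ⟨0, fun h => absurd h ha⟩
  choose ρ hρ using k
  refine ih α _ ρ (fun a ha => (hρ a ha).1) (fun a ha => ⟨ρ a, (hρ a ha).1, rfl⟩)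
    fun a ha b hb hab => hi a (mem_filter.1 ha).1 b (mem_filter.1 hb).1 fun h => ?_
  obtain ⟨y, hy⟩ := mem_Mu.1 (hab h)
  refine mem_Mu.2 ⟨y, ?_⟩
  have e : 2 ^ (j + 1 - 1) = 2 * 2 ^ (j - 1) := by
    rw [← pow_succ']
    congr 1
    omega
  rw [e, mul_smul, hy, smul_sub, ← (hρ a ha).2, ← (hρ b hb).2, sub_sub_sub_cancel_right]

theorem bd_all (PR : SPR) (ax : Ax1 Φ) (lb : Lb pr P i1) (ok : μ.Ok J) (j : ℕ) (hj : 1 ≤ j)
    (hJ : j ≤ J) : Bd Φ μ pr P j (Vs Φ μ pr P j) (vp Φ μ pr P (j + 1)) := by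
  induction j, hj using Nat.le_induction with
  | base =>
    intro α F Ψ _ _ hi
    rw [vp, Ico_self, prod_empty]
    exact card_le_one.2 fun a ha b hb => hi a ha b hb fun h => mem_Mu.2 ⟨_, one_smul _ _⟩
  | succ j hj ih =>
    have := step PR ax lb ok hj hJ (ih (by omega)) (Vs Φ μ pr P (j + 1))
    rwa [vp, mul_comm, ← prod_Ico_succ_top (f := fun i => (Vs Φ μ pr P i).ncard) (by omega)] at this

theorem bd_zz (PR : SPR) (ax : Ax1 Φ) (lb : Lb pr P i1) (ok : μ.Ok J) :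
    Bd Φ μ pr P J (Vg Φ μ pr P J) (zz Φ μ pr P J) := by
  obtain ⟨j, rfl⟩ : ∃ j, J = j + 1 := ⟨J - 1, by have := ok.two; omega⟩
  have hj : 1 ≤ j := by have := ok.two; omega
  exact step PR ax lb ok hj le_rfl (bd_all PR ax lb ok j hj (by omega)) _

omit [DecidableEq ι] in
theorem move (hC : SCC) {μ' : Md ℓ} (ok : μ.Ok J) (ok' : μ'.Ok J) (ha : μ'.a = μ.a)
    (hn : μ'.n = μ.n) (A : Mz ℓ) (hA : IsUnit (bar A)) (e : q J (A * μ.g) = q J (μ'.g * A))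
    {ψ : Ga → Fin ℓ → ℤ} (hc : CC Φ μ pr P J ψ)
    (hG : G3 (bar μ.g) (bar μ.s) (bar μ.u) (red Φ pr ψ)) :
    CC Φ μ' pr P J (fun h => A *ᵥ ψ h) ∧ red Φ pr (fun h => A *ᵥ ψ h) ∈ Vg Φ μ' pr P J := by
  have h1 : CC Φ μ' pr P J fun h => A *ᵥ ψ h := by
    rw [CC, hn]
    refine hC.map _ _ Φ _ P μ.n (toLin' μ.g) (toLin' μ'.g) (Mu _ J) (Mu _ J) (fun x => A *ᵥ x) ψ
      (fun x hx => mu_mul J _ x hx) (fun x hx => mu_mul J _ x hx) (fun x y => ?_) (fun x => ?_) hc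
    · rw [mulVec_add, add_sub_cancel_left, sub_self]
      exact zero_mem _
    · rw [toLin'_apply, toLin'_apply, mulVec_mulVec, mulVec_mulVec, ← sub_mulVec]
      exact (q_mu J _).1 (by rw [map_sub, e, sub_self]) x
  refine ⟨h1, ⟨_, h1, rfl⟩, fun W hW hv => eq_top_iff.2 fun y _ => ?_⟩
  obtain ⟨x, rfl⟩ := Matrix.mulVec_surjective_iff_isUnit.2 hA y
  exact pull hG (inter_bar ok ok' ha A (q_down ok.two e)) W hW
    (fun o => (bar_vec A _).symm ▸ hv o) x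

end Count

/-- the index set -/
abbrev Ix (ℓ j : ℕ) : Type := GL (Fin ℓ) F2 × (Fin ℓ → Fin ℓ → Fin (2 ^ j))

/-- the matrix of an index -/
def mat {j : ℕ} (p : Ix ℓ j) : Mz ℓ :=
  Matrix.of fun a b => ((p.1.1 a b).val : ℤ) + 2 * ((p.2 a b : ℕ) : ℤ)

theorem bar_mat {j : ℕ} (p : Ix ℓ j) : bar (mat p) = p.1.1 := by
  refine Matrix.ext fun a b => ?_
  have : (2 : F2) = 0 := rfl
  simp [bar, mat, this]

theorem mat_inj {j : ℕ} (p p' : Ix ℓ j) (F : Mz ℓ) (h : mat p - mat p' = (2 : ℤ) ^ (j + 1) • F) :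
    p = p' := by
  have k : ∀ a b, (p.1.1 a b).val = (p'.1.1 a b).val ∧ (p.2 a b : ℕ) = p'.2 a b := fun a b => by
    have h1 : ((p.1.1 a b).val : ℤ) + 2 * ((p.2 a b : ℕ) : ℤ) -
        (((p'.1.1 a b).val : ℤ) + 2 * ((p'.2 a b : ℕ) : ℤ)) = 2 ^ (j + 1) * F a b :=
      congrFun (congrFun h a) b
    have h2 := ZMod.val_lt (p.1.1 a b)
    have h3 := ZMod.val_lt (p'.1.1 a b)
    have h4 : ((p.2 a b : ℕ) : ℤ) < 2 ^ j := by exact_mod_cast (p.2 a b).2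
    have h5 : ((p'.2 a b : ℕ) : ℤ) < 2 ^ j := by exact_mod_cast (p'.2 a b).2
    have h6 := Int.eq_zero_of_abs_lt_dvd ⟨_, h1⟩ (by rw [pow_succ, abs_lt]; omega)
    omega
  refine Prod.ext (Units.ext (Matrix.ext fun a b => ZMod.val_injective 2 (k a b).1)) ?_
  funext a b
  exact Fin.ext (k a b).2

theorem card_ix (ℓ j : ℕ) : (2 : ℝ) ^ (ℓ * ℓ * (j + 1)) ≤ 4 * Fintype.card (Ix ℓ j) := by
  have h := LDO.card_ge ℓ
  rw [← Nat.card_congr (LinearMap.GeneralLinearGroup.generalLinearEquiv F2 _).toEquiv,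
    ← Nat.card_congr (Matrix.GeneralLinearGroup.toLin (n := Fin ℓ) (R := F2)).toEquiv,
    Nat.card_eq_fintype_card] at h
  rw [Fintype.card_prod, Nat.cast_mul, ← mul_assoc, mul_add, mul_one, pow_add, mul_comm]
  refine mul_le_mul h (le_of_eq ?_) (by positivity) (by positivity)
  simp only [Fintype.card_fun, Fintype.card_fin]
  push_cast
  ring

end ORB

open ORB in
theorem rowORB : OfORB := by
  classical
  intro hC PR ι _ _ ℓ Φ μ pr P J i1 ax lb ok ⟨v, ⟨ψ, hc, hv⟩, hG⟩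
  subst hv
  obtain ⟨j, rfl⟩ : ∃ j, J = j + 2 := ⟨J - 2, by have := ok.two; omega⟩
  have hu : ∀ p : Ix ℓ j, IsUnit (bar (mat p)) := fun p => bar_mat p ▸ p.1.isUnit
  choose rr h1 h2 using fun p : Ix ℓ j => conj ok (mat p) (hu p)
  have key : ∀ r : Rd ℓ (j + 2), ((univ.filter fun p => rr p = r).card : ℝ) ≤
      ind ((mdo r μ.a μ.n).Ok (j + 2)) * zz Φ (mdo r μ.a μ.n) pr P (j + 2) := fun r => by
    rcases (univ.filter fun p => rr p = r).eq_empty_or_nonempty with he | ⟨p0, h0⟩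
    · rw [he, card_empty, Nat.cast_zero, ind]
      split_ifs <;> positivity
    have ok' : (mdo r μ.a μ.n).Ok (j + 2) := (mem_filter.1 h0).2 ▸ h1 p0
    have e : ∀ p ∈ univ.filter fun p => rr p = r,
        q (j + 2) (mat p * μ.g) = q (j + 2) ((mdo r μ.a μ.n).g * mat p) :=
      fun p hp => (mem_filter.1 hp).2 ▸ h2 p
    rw [ind, if_pos ok', one_mul, Nat.cast_le]
    refine bd_zz PR ax lb ok' _ _ (fun p h => mat p *ᵥ ψ h)
      (fun p hp => (move hC ok ok' rfl rfl _ (hu p) (e p hp) hc hG).1)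
      (fun p hp => (move hC ok ok' rfl rfl _ (hu p) (e p hp) hc hG).2) fun p hp p' hp' h => ?_
    obtain ⟨F, hF⟩ := uniq ok ok' rfl (fun o => ψ (Φ.sg (po pr o))) hG _ _ (e p hp) (e p' hp')
      (fun o => h _) (j + 1) le_rfl
    exact mat_inj p p' F hF
  have h3 : (Fintype.card (Ix ℓ j) : ℝ) = ∑ r, ((univ.filter fun p => rr p = r).card : ℝ) := by
    rw [← Nat.cast_sum, ← card_univ, card_eq_sum_card_fiberwise (f := rr) (t := univ)
      fun _ _ => mem_univ _]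
  have h4 := card_ix ℓ j
  rw [h3] at h4
  calc (2 : ℝ) ^ (ℓ * ℓ * (j + 2)) = 2 ^ (ℓ * ℓ) * 2 ^ (ℓ * ℓ * (j + 1)) := by ring
    _ ≤ 2 ^ (ℓ * ℓ) * (4 * ∑ r : Rd ℓ (j + 2),
        ind ((mdo r μ.a μ.n).Ok (j + 2)) * zz Φ (mdo r μ.a μ.n) pr P (j + 2)) :=
      mul_le_mul_of_nonneg_left (h4.trans (mul_le_mul_of_nonneg_left
        (sum_le_sum fun r _ => key r) (by norm_num))) (by positivity)
    _ = _ := by ring

end Pool.Agent.MP_1246c0_nt.H25
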